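import Pool.Agent.K4H4.CL.Fam

set_option autoImplicit false

/-! Small deviations are rare. -/

namespace Pool.Agent.K4H4.CL
open Finset MeasureTheory ProbabilityTheory

lemma gauss_small (y : ℝ) (hy : 0 ≤ y) :
    (gaussianReal 0 1).real (Set.Iic y) - (gaussianReal 0 1).real (Set.Iic (-y)) ≤ y := by
  have h1 : (gaussianReal 0 1).real (Set.Ioc (-y) y) = (gaussianReal 0 1).real (Set.Iic y) - (gaussianReal 0 1).real (Set.Iic (-y)) := by
    have e : Set.Ioc (-y) y = Set.Iic y \ Set.Iic (-y) := by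
      ext z
      simp only [Set.mem_Ioc, Set.mem_sdiff, Set.mem_Iic, not_le]
      tauto
    rw [e, measureReal_sdiff (Set.Iic_subset_Iic.2 (by linarith)) measurableSet_Iic]
  rw [← h1]
  unfold Measure.real
  rw [gaussianReal_apply 0 (one_ne_zero)]
  have h2 : ∫⁻ x in Set.Ioc (-y) y, gaussianPDF 0 1 x ≤ ENNReal.ofReal (1 / 2) * volume (Set.Ioc (-y) y) := by
    rw [← setLIntegral_const]
    apply lintegral_mono
    intro x
    unfold gaussianPDF gaussianPDFReal
    apply ENNReal.ofReal_le_ofReal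
    have h3 : Real.exp (-(x - 0) ^ 2 / (2 * ((1 : NNReal) : ℝ))) ≤ 1 := by
      rw [Real.exp_le_one_iff]
      apply div_nonpos_of_nonpos_of_nonneg
      · have := sq_nonneg (x - 0)
        linarith
      · norm_num
    have h4 : (Real.sqrt (2 * Real.pi * ((1 : NNReal) : ℝ)))⁻¹ ≤ 1 / 2 := by
      rw [inv_le_comm₀ (by
        apply Real.sqrt_pos.2
        have := Real.pi_pos
        simp only [NNReal.coe_one]
        linarith) (by norm_num)]
      norm_num
      have : Real.sqrt 4 ≤ Real.sqrt (2 * Real.pi) := Real.sqrt_le_sqrt (by linarith [Real.pi_gt_three])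
      have e : Real.sqrt 4 = 2 := by
        rw [show (4 : ℝ) = 2 ^ 2 by norm_num]
        exact Real.sqrt_sq (by norm_num)
      rw [e, Real.sqrt_mul (by norm_num)] at this
      exact this
    calc _ ≤ 1 / 2 * 1 := mul_le_mul h4 h3 (Real.exp_pos _).le (by norm_num)
      _ = 1 / 2 := mul_one _
  have h3 : ENNReal.ofReal (1 / 2) * volume (Set.Ioc (-y) y) = ENNReal.ofReal y := by
    rw [Real.volume_Ioc, ← ENNReal.ofReal_mul (by norm_num)]
    congr 1
    ring
  rw [h3] at h2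
  exact ENNReal.toReal_le_of_le_ofReal hy h2

open Classical in
/-- **Small deviations are rare.** -/
theorem anti (d r : ℕ) (hr : 1 ≤ r) (η ε : ℝ) (hη : 0 < η) (hε : 0 < ε) : ∃ δ : ℝ, 0 < δ ∧ ∃ C : ℕ, ∀ g : ℕ → (Fin d → ℤ) → ℝ,
    (∀ k, PerZ (PI (Ico k (k + r))) (g k)) → (∀ k t, |g k t| ≤ 1) → ∀ (K : ℕ) (N : Fin d → ℕ) (u : Fin d → ℤ),
    C ≤ K → (∀ i, K ^ C ≤ N i) → η * K ≤ va g r K →
      ((((par N).filter (fun n => |tot g K (fun i => u i + n i) - mu g r K| < δ * Real.sqrt K)).card : ℕ) : ℝ) ≤ ε * ∏ i, (N i : ℝ) := by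
  obtain ⟨C, hC⟩ := normal_law d r hr η (ε / 4) hη (by positivity)
  have hsη : 0 < Real.sqrt η := Real.sqrt_pos.2 hη
  refine ⟨ε / 2 * Real.sqrt η, by positivity, C, fun g hg hb K N u hK hN hV => ?_⟩
  have h1 := hC g hg hb K N u hK hN hV (ε / 2)
  have h2 := hC g hg hb K N u hK hN hV (-(ε / 2))
  obtain ⟨A, hA⟩ : ∃ A, A = (par N).filter (fun n => tot g K (fun i => u i + n i) - mu g r K ≤ ε / 2 * Real.sqrt (va g r K)) := ⟨_, rfl⟩
  obtain ⟨B, hB⟩ : ∃ B, B = (par N).filter (fun n => tot g K (fun i => u i + n i) - mu g r K ≤ -(ε / 2) * Real.sqrt (va g r K)) := ⟨_, rfl⟩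
  rw [← hA] at h1
  rw [← hB] at h2
  have hle : ε / 2 * Real.sqrt η * Real.sqrt K ≤ ε / 2 * Real.sqrt (va g r K) := by
    rw [mul_assoc, ← Real.sqrt_mul hη.le]
    exact mul_le_mul_of_nonneg_left (Real.sqrt_le_sqrt hV) (by positivity)
  have hs0 : 0 ≤ Real.sqrt (va g r K) := Real.sqrt_nonneg _
  have hBA : B ⊆ A := by
    intro n hn
    rw [hB, mem_filter] at hn
    rw [hA, mem_filter]
    refine ⟨hn.1, hn.2.trans ?_⟩
    nlinarith
  have hsub : (par N).filter (fun n => |tot g K (fun i => u i + n i) - mu g r K| < ε / 2 * Real.sqrt η * Real.sqrt K) ⊆ A \ B := by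
    intro n hn
    rw [mem_filter, abs_lt] at hn
    rw [mem_sdiff, hA, hB, mem_filter, mem_filter]
    refine ⟨⟨hn.1, by linarith⟩, fun h => ?_⟩
    have := h.2
    linarith
  have h3 : ((((par N).filter (fun n => |tot g K (fun i => u i + n i) - mu g r K| < ε / 2 * Real.sqrt η * Real.sqrt K)).card : ℕ) : ℝ) ≤
      (A.card : ℝ) - B.card := by
    have h4 := card_le_card hsub
    rw [card_sdiff_of_subset hBA] at h4
    have h5 := card_le_card hBA
    have h6 : (((A.card - B.card : ℕ)) : ℝ) = (A.card : ℝ) - B.card := by push_cast [Nat.cast_sub h5]; ring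
    rw [← h6]
    exact_mod_cast h4
  have hg2 := gauss_small (ε / 2) (by positivity)
  have hP : 0 ≤ ∏ i, (N i : ℝ) := prod_nonneg fun _ _ => Nat.cast_nonneg _
  have h5 := (abs_le.1 h1).2
  have h6 := (abs_le.1 h2).1
  have h7 := mul_le_mul_of_nonneg_left hg2 hP
  refine h3.trans ?_
  linarith

end Pool.Agent.K4H4.CL
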