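import Pool.Agent.K4H4.CL.Loc
import Pool.Agent.K4H4.GL.Half

set_option autoImplicit false

/-! The central limit theorem for sums of functions of the residues modulo `r` consecutive primes. -/

namespace Pool.Agent.K4H4.CL
open Finset MeasureTheory ProbabilityTheory
open Pool.Agent.TH894.NE (box mem_box card_box Per mean two_mod mean_mono mean_const mean_add mean_mul)
open Pool.Agent.K4H4.GL (Lam half_line)

variable {d : ℕ}

lemma gm_eq (k : ℕ) (V : ℝ) (hV : 0 < V) : ∫ z, z ^ k ∂(gaussianReal 0 1) = G k V / Real.sqrt V ^ k := by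
  rcases Nat.even_or_odd k with hk | hk
  · obtain ⟨c, rfl⟩ := hk
    have e : c + c = 2 * c := by ring
    rw [e, Pool.Agent.R320.KL.gm_even c]
    unfold G
    rw [if_pos ⟨c, by ring⟩, pow_mul, Real.sq_sqrt hV.le]
    have e2 : 2 * c / 2 = c := by omega
    rw [e2, mul_div_assoc, div_self (pow_ne_zero _ hV.ne'), mul_one]
  · rw [Pool.Agent.R320.KL.gm_odd k hk 1]
    unfold G
    rw [if_neg (Nat.not_even_iff_odd.2 hk), zero_div]

lemma Per.prod {q : ℕ} {ι : Type} (I : Finset ι) (f : ι → (Fin d → ℕ) → ℝ) (h : ∀ i ∈ I, Per q (f i)) :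
    Per q (fun n => ∏ i ∈ I, f i n) := by
  intro n
  exact prod_congr rfl fun i hi => h i hi n

/-- the average of the powers of the sum over a box of parameters -/
lemma avg_pow (r : ℕ) (Y : ℕ → (Fin d → ℕ) → ℝ) (K : ℕ) (σ : ℝ) (h : (sys d (K + r)).Hyp Y r K σ) (hK : 1 ≤ K) (m k : ℕ) (hk : k ≤ 2 * m)
    (N : Fin d → ℕ) (hN : ∀ i, (K : ℝ) ^ (2 * m) * (pr (K + r) : ℝ) ^ (2 * m * r) * σ ≤ N i) :
    |∑ n ∈ par N, Sys.S Y K n ^ k - (∏ i, (N i : ℝ)) * (sys d (K + r)).E (fun n => Sys.S Y K n ^ k)| ≤ 2 ^ d / σ * ∏ i, (N i : ℝ) := by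
  classical
  have hσ := h.s1
  have hσ0 : 0 < σ := by linarith
  have hK1 : (1 : ℝ) ≤ K := by exact_mod_cast hK
  have hp1 : (1 : ℝ) ≤ pr (K + r) := by exact_mod_cast (pr_prime _).one_lt.le
  obtain ⟨Pp, hPp⟩ : ∃ Pp : Finset (Fin k → ℕ), Pp = Fintype.piFinset (fun _ : Fin k => range K) := ⟨_, rfl⟩
  have hexp : ∀ n, Sys.S Y K n ^ k = ∑ p ∈ Pp, ∏ i : Fin k, Y (p i) n := by
    intro n
    unfold Sys.S
    have h1 := Finset.prod_univ_sum (fun _ : Fin k => range K) (fun _ l => Y l n)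
    rw [prod_const, card_univ, Fintype.card_fin] at h1
    rw [h1, hPp]
  have hcardP : (Pp.card : ℝ) = (K : ℝ) ^ k := by
    rw [hPp, Fintype.card_piFinset_const, card_range]
    push_cast
    rfl
  -- one monomial
  obtain ⟨η, hη⟩ : ∃ η : ℝ, η = 1 / ((K : ℝ) ^ (2 * m) * σ) := ⟨_, rfl⟩
  have hη0 : 0 ≤ η := by rw [hη]; positivity
  have hKm : (1 : ℝ) ≤ (K : ℝ) ^ (2 * m) := one_le_pow₀ hK1
  have hη1 : η ≤ 1 := by
    rw [hη, div_le_one (by positivity)]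
    nlinarith
  have hmono : ∀ p ∈ Pp, |∑ n ∈ par N, ∏ i : Fin k, Y (p i) n - (∏ i, (N i : ℝ)) * mean d (PI (range (K + r))) (fun n => ∏ i : Fin k, Y (p i) n)| ≤
      1 * (2 ^ d * η) * ∏ i, (N i : ℝ) := by
    intro p hp
    rw [hPp, Fintype.mem_piFinset] at hp
    obtain ⟨I, hI⟩ : ∃ I : Finset ℕ, I = (univ : Finset (Fin k)).biUnion (fun i => Ico (p i) (p i + r)) := ⟨_, rfl⟩
    have hIsub : I ⊆ range (K + r) := by
      intro x hx
      rw [hI, mem_biUnion] at hx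
      obtain ⟨i, _, hx⟩ := hx
      rw [mem_Ico] at hx
      have := mem_range.1 (hp i)
      rw [mem_range]
      omega
    have hIcard : I.card ≤ 2 * m * r := by
      rw [hI]
      refine card_biUnion_le.trans ?_
      rw [sum_congr rfl fun i _ => Nat.card_Ico (p i) (p i + r)]
      rw [sum_congr rfl fun i _ => (by omega : p i + r - p i = r), sum_const, card_univ, Fintype.card_fin, smul_eq_mul]
      exact Nat.mul_le_mul_right r hk
    have hper : Per (PI I) (fun n => ∏ i : Fin k, Y (p i) n) := by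
      apply Per.prod
      intro i _
      have h1 : Per (PI (Ico (p i) (p i + r))) (Y (p i)) := h.dep (p i)
      refine h1.of_dvd (PI_dvd ?_)
      intro x hx
      rw [hI, mem_biUnion]
      exact ⟨i, mem_univ _, hx⟩
    have hq : (PI I : ℝ) ≤ (pr (K + r) : ℝ) ^ (2 * m * r) := by
      unfold PI
      push_cast
      calc ∏ l ∈ I, (pr l : ℝ) ≤ ∏ _l ∈ I, (pr (K + r) : ℝ) := by
            apply prod_le_prod (fun _ _ => Nat.cast_nonneg _)
            intro l hl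
            have := mem_range.1 (hIsub hl)
            exact_mod_cast pr_mono (by omega : l ≤ K + r)
        _ = (pr (K + r) : ℝ) ^ I.card := prod_const _
        _ ≤ _ := pow_le_pow_right₀ hp1 hIcard
    rw [mean_eq hIsub _ hper]
    refine box_avg N (PI I) (PI_pos I) η hη0 hη1 ?_ _ hper 1 ?_
    · intro i
      refine hq.trans ?_
      rw [hη, div_mul_eq_mul_div, one_mul, le_div_iff₀ (by positivity)]
      calc _ = (K : ℝ) ^ (2 * m) * (pr (K + r) : ℝ) ^ (2 * m * r) * σ := by ring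
        _ ≤ N i := hN i
    · intro n
      rw [abs_prod]
      exact prod_le_one (fun _ _ => abs_nonneg _) (fun i _ => h.bd (p i) n)
  have e1 : ∑ n ∈ par N, Sys.S Y K n ^ k = ∑ p ∈ Pp, ∑ n ∈ par N, ∏ i : Fin k, Y (p i) n := by
    rw [sum_congr rfl fun n _ => hexp n, sum_comm]
  have e2 : (sys d (K + r)).E (fun n => Sys.S Y K n ^ k) = ∑ p ∈ Pp, mean d (PI (range (K + r))) (fun n => ∏ i : Fin k, Y (p i) n) := by
    have e3 : (fun n => Sys.S Y K n ^ k) = fun n => ∑ p ∈ Pp, ∏ i : Fin k, Y (p i) n := by funext n; exact hexp n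
    rw [e3, (sys d (K + r)).sum]
    rfl
  rw [e1, e2, mul_sum, ← sum_sub_distrib]
  refine (abs_sum_le_sum_abs _ _).trans ?_
  refine (sum_le_sum hmono).trans ?_
  rw [sum_const, nsmul_eq_mul, hcardP, one_mul]
  have hPN : 0 ≤ ∏ i, (N i : ℝ) := prod_nonneg fun _ _ => Nat.cast_nonneg _
  have h3 : (K : ℝ) ^ k * η ≤ 1 / σ := by
    rw [hη, mul_one_div, div_le_div_iff₀ (by positivity) hσ0, one_mul]
    exact mul_le_mul_of_nonneg_right (pow_le_pow_right₀ hK1 hk) hσ0.le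
  calc (K : ℝ) ^ k * (2 ^ d * η * ∏ i, (N i : ℝ)) = ((K : ℝ) ^ k * η) * (2 ^ d * ∏ i, (N i : ℝ)) := by ring
    _ ≤ (1 / σ) * (2 ^ d * ∏ i, (N i : ℝ)) := mul_le_mul_of_nonneg_right h3 (by positivity)
    _ = _ := by ring

open Classical in
/-- **The central limit theorem.** -/
theorem clt (d r m : ℕ) (hm : 1 ≤ m) (η : ℝ) (hη : 0 < η) : ∃ C : ℝ, 0 ≤ C ∧ ∀ (Y : ℕ → (Fin d → ℕ) → ℝ) (K : ℕ) (σ : ℝ),
    (sys d (K + r)).Hyp Y r K σ → η * σ ^ 2 ≤ (sys d (K + r)).V Y K →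
    ∀ N : Fin d → ℕ, (∀ i, (K : ℝ) ^ (2 * m) * (pr (K + r) : ℝ) ^ (2 * m * r) * σ ≤ N i) → ∀ x : ℝ,
      |((((par N).filter (fun n => Sys.S Y K n / Real.sqrt ((sys d (K + r)).V Y K) ≤ x)).card : ℕ) : ℝ) -
        (∏ i, (N i : ℝ)) * (gaussianReal 0 1).real (Set.Iic x)| ≤ (12500 / Real.sqrt m + C / σ) * ∏ i, (N i : ℝ) := by
  obtain ⟨Cm, hCm, hhalf⟩ := half_line m hm
  choose Cj hCj hmom using fun j : ℕ => Sys.moments (Ω := Fin d → ℕ) r j
  obtain ⟨A, hA⟩ : ∃ A : ℝ, A = ∑ k ∈ range (2 * m + 1), (Cj k + 2 ^ d) / Real.sqrt η ^ k := ⟨_, rfl⟩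
  have hsη : 0 < Real.sqrt η := Real.sqrt_pos.2 hη
  have hterm : ∀ k, 0 ≤ (Cj k + 2 ^ d) / Real.sqrt η ^ k := by
    intro k
    have := hCj k
    positivity
  have hA0 : 0 ≤ A := by
    rw [hA]
    exact sum_nonneg fun k _ => hterm k
  refine ⟨Cm * A, by positivity, fun Y K σ h hV N hN x => ?_⟩
  have hσ := h.s1
  have hσ0 : 0 < σ := by linarith
  obtain ⟨M, hM⟩ : ∃ M, M = sys d (K + r) := ⟨_, rfl⟩
  rw [← hM] at h hV ⊢
  have hVpos : 0 < M.V Y K := lt_of_lt_of_le (by positivity) hV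
  have hK : 1 ≤ K := by
    by_contra h0
    have : K = 0 := by omega
    rw [this] at hVpos
    have e : M.V Y 0 = 0 := by
      unfold Sys.V
      have e : (fun ω => Sys.S Y 0 ω ^ 2) = fun _ => (0 : ℝ) := by funext ω; simp [Sys.S]
      rw [e, M.const]
    rw [e] at hVpos
    exact lt_irrefl _ hVpos
  obtain ⟨V, hVd⟩ : ∃ V, V = M.V Y K := ⟨_, rfl⟩
  rw [← hVd] at hV hVpos ⊢
  have hsV : 0 < Real.sqrt V := Real.sqrt_pos.2 hVpos
  have hPN : 0 ≤ ∏ i, (N i : ℝ) := prod_nonneg fun _ _ => Nat.cast_nonneg _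
  have hcard : ((par N).card : ℝ) = ∏ i, (N i : ℝ) := by
    rw [card_par]
    push_cast
    rfl
  have hsVσ : Real.sqrt η * σ ≤ Real.sqrt V := by
    apply Real.le_sqrt_of_sq_le
    rw [mul_pow, Real.sq_sqrt hη.le]
    exact hV
  have hlam : ∀ k, 1 ≤ k → k ≤ 2 * m → |Lam (par N) (fun n => Sys.S Y K n / Real.sqrt V) (fun z => z ^ k)| ≤ A / σ * ∏ i, (N i : ℝ) := by
    intro k hk1 hk
    unfold Lam
    rw [gm_eq k V hVpos, hcard]
    have e1 : ∑ n ∈ par N, (Sys.S Y K n / Real.sqrt V) ^ k = (∑ n ∈ par N, Sys.S Y K n ^ k) / Real.sqrt V ^ k := by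
      rw [sum_div]
      exact sum_congr rfl fun n _ => div_pow _ _ _
    rw [e1]
    have e2 : (∑ n ∈ par N, Sys.S Y K n ^ k) / Real.sqrt V ^ k - (∏ i, (N i : ℝ)) * (G k V / Real.sqrt V ^ k) =
        ((∑ n ∈ par N, Sys.S Y K n ^ k - (∏ i, (N i : ℝ)) * M.E (fun n => Sys.S Y K n ^ k)) +
          (∏ i, (N i : ℝ)) * (M.E (fun n => Sys.S Y K n ^ k) - G k V)) / Real.sqrt V ^ k := by
      field_simp
      ring
    rw [e2, abs_div, abs_of_pos (pow_pos hsV k), div_le_iff₀ (pow_pos hsV k)]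
    have h1 : |∑ n ∈ par N, Sys.S Y K n ^ k - (∏ i, (N i : ℝ)) * M.E (fun n => Sys.S Y K n ^ k)| ≤ 2 ^ d / σ * ∏ i, (N i : ℝ) := by
      rw [hM]
      rw [hM] at h
      exact avg_pow r Y K σ h hK m k hk N hN
    have h2 : |M.E (fun n => Sys.S Y K n ^ k) - G k V| ≤ Cj k * σ ^ k / σ := by
      rw [le_div_iff₀ hσ0, hVd]
      exact hmom k M Y K σ h K le_rfl
    have h3 : (Cj k + 2 ^ d) / Real.sqrt η ^ k ≤ A := by
      rw [hA]
      exact single_le_sum (f := fun k => (Cj k + 2 ^ d) / Real.sqrt η ^ k) (fun i _ => hterm i) (mem_range.2 (by omega))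
    have h4 : (Real.sqrt η * σ) ^ k ≤ Real.sqrt V ^ k := pow_le_pow_left₀ (by positivity) hsVσ k
    have hσk : 1 ≤ σ ^ k := one_le_pow₀ hσ
    have hCk := hCj k
    calc |(∑ n ∈ par N, Sys.S Y K n ^ k - (∏ i, (N i : ℝ)) * M.E (fun n => Sys.S Y K n ^ k)) +
          (∏ i, (N i : ℝ)) * (M.E (fun n => Sys.S Y K n ^ k) - G k V)| ≤
        2 ^ d / σ * ∏ i, (N i : ℝ) + (∏ i, (N i : ℝ)) * (Cj k * σ ^ k / σ) := by
          refine (abs_add_le _ _).trans (add_le_add h1 ?_)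
          rw [abs_mul, abs_of_nonneg hPN]
          exact mul_le_mul_of_nonneg_left h2 hPN
      _ = (2 ^ d * 1 + Cj k * σ ^ k) * ((∏ i, (N i : ℝ)) / σ) := by
          field_simp
      _ ≤ (2 ^ d * σ ^ k + Cj k * σ ^ k) * ((∏ i, (N i : ℝ)) / σ) := by
          apply mul_le_mul_of_nonneg_right _ (by positivity)
          have : (2 : ℝ) ^ d * 1 ≤ 2 ^ d * σ ^ k := mul_le_mul_of_nonneg_left hσk (by positivity)
          linarith
      _ = ((Cj k + 2 ^ d) / Real.sqrt η ^ k) * (Real.sqrt η * σ) ^ k * ((∏ i, (N i : ℝ)) / σ) := by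
          rw [mul_pow]
          field_simp
          ring
      _ ≤ A * Real.sqrt V ^ k * ((∏ i, (N i : ℝ)) / σ) := by
          apply mul_le_mul_of_nonneg_right _ (by positivity)
          exact mul_le_mul h3 h4 (by positivity) hA0
      _ = A / σ * (∏ i, (N i : ℝ)) * Real.sqrt V ^ k := by ring
  have h5 := hhalf (par N) (fun n => Sys.S Y K n / Real.sqrt V) (A / σ * ∏ i, (N i : ℝ)) (by positivity) hlam x
  rw [hcard] at h5
  refine h5.trans (le_of_eq ?_)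
  ring

end Pool.Agent.K4H4.CL
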