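import Pool.Agent.K4H4.CL.Prod
import Pool.Agent.K4H4.CL.Anti
import Pool.Agent.Y57.FD.HypM

set_option autoImplicit false

/-! Frobenius angles of elliptic curves as functions of the coefficients. -/

namespace Pool.Agent.K4H4.CL.Ell
open Finset
open Pool.Agent.K4H4.CL

/-- the number of the affine points modulo `p` of `Y ^ 2 = X ^ 3 + c 2 X ^ 2 + c 1 X + c 0` -/
noncomputable def points (p : ℕ) (c : Fin 3 → ℤ) : ℕ :=
  Nat.card {P : ZMod p × ZMod p // P.2 ^ 2 = P.1 ^ 3 + (c 2 : ZMod p) * P.1 ^ 2 + (c 1 : ZMod p) * P.1 + (c 0 : ZMod p)}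

/-- the curve is smooth modulo `p` -/
def Smooth (p : ℕ) (c : Fin 3 → ℤ) : Prop :=
  p ≠ 2 ∧ (Polynomial.X ^ 3 + Polynomial.C (c 2 : ZMod p) * Polynomial.X ^ 2 + Polynomial.C (c 1 : ZMod p) * Polynomial.X +
    Polynomial.C (c 0 : ZMod p)).Separable

open Classical in
/-- the trace of Frobenius (affine points: `a_p = p - points`), `0` if the curve is not smooth modulo `p` -/
noncomputable def trace (p : ℕ) (c : Fin 3 → ℤ) : ℤ := if Smooth p c then (p : ℤ) - points p c else 0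

/-- the angle -/
noncomputable def angle (p : ℕ) (c : Fin 3 → ℤ) : ℝ := Real.arccos ((trace p c : ℝ) / (2 * Real.sqrt p)) / Real.pi

lemma cast_eq (p : ℕ) (a b : ℤ) (h : (p : ℤ) ∣ a - b) : (a : ZMod p) = (b : ZMod p) := by
  have h1 : ((a - b : ℤ) : ZMod p) = 0 := (ZMod.intCast_zmod_eq_zero_iff_dvd _ _).2 h
  push_cast at h1
  exact sub_eq_zero.1 h1

lemma trace_congr (p : ℕ) (c c' : Fin 3 → ℤ) (h : ∀ i, (p : ℤ) ∣ c i - c' i) : trace p c = trace p c' := by
  have h1 : ∀ i, (c i : ZMod p) = (c' i : ZMod p) := fun i => cast_eq p _ _ (h i)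
  unfold trace Smooth points
  rw [h1 0, h1 1, h1 2]

lemma card_affine (p : ℕ) [Fact p.Prime] (hp : p ≠ 2) (f : ZMod p → ZMod p) :
    (Nat.card {P : ZMod p × ZMod p // P.2 ^ 2 = f P.1} : ℝ) = (p : ℝ) + ∑ x : ZMod p, (quadraticChar (ZMod p) (f x) : ℝ) := by
  classical
  have hchar : ringChar (ZMod p) ≠ 2 := by
    rw [ZMod.ringChar_zmod_n]
    exact hp
  have h1 : Nat.card {P : ZMod p × ZMod p // P.2 ^ 2 = f P.1} = ∑ x : ZMod p, Nat.card {y : ZMod p // y ^ 2 = f x} := by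
    rw [← Nat.card_sigma]
    refine Nat.card_congr ⟨fun P => ⟨P.1.1, ⟨P.1.2, P.2⟩⟩, fun P => ⟨(P.1, P.2.1), P.2.2⟩, fun _ => rfl, fun _ => rfl⟩
  have h2 : ∀ x : ZMod p, ((Nat.card {y : ZMod p // y ^ 2 = f x} : ℕ) : ℤ) = quadraticChar (ZMod p) (f x) + 1 := by
    intro x
    rw [← quadraticChar_card_sqrts hchar (f x)]
    congr 1
    rw [Nat.card_eq_fintype_card, Fintype.card_subtype]
    congr 1
    ext y
    simp
  rw [h1]
  push_cast
  have h3 : ∀ x : ZMod p, ((Nat.card {y : ZMod p // y ^ 2 = f x} : ℕ) : ℝ) = (quadraticChar (ZMod p) (f x) : ℝ) + 1 := by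
    intro x
    have := h2 x
    exact_mod_cast this
  rw [sum_congr rfl (fun x _ => h3 x), sum_add_distrib, sum_const, card_univ, ZMod.card, nsmul_eq_mul, mul_one]
  ring

lemma pol_eq (p : ℕ) [Fact p.Prime] (m : Fin (2 * 1 + 1) → ℕ) :
    Pool.Agent.Y57.FD.HM.pol p (fun i => ((m i : ℕ) : ZMod p)) =
    Polynomial.X ^ 3 + Polynomial.C (m 2 : ZMod p) * Polynomial.X ^ 2 + Polynomial.C (m 1 : ZMod p) * Polynomial.X +
      Polynomial.C (m 0 : ZMod p) := by
  unfold Pool.Agent.Y57.FD.HM.pol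
  rw [Fin.sum_univ_three]
  simp
  ring

lemma val_eq (p : ℕ) [Fact p.Prime] (m : Fin (2 * 1 + 1) → ℕ) (x : ZMod p) :
    Pool.Agent.Y57.FD.Mom.val (ZMod p) (2 * 1 + 1) (fun i => ((m i : ℕ) : ZMod p)) x =
    x ^ 3 + (m 2 : ZMod p) * x ^ 2 + (m 1 : ZMod p) * x + (m 0 : ZMod p) := by
  unfold Pool.Agent.Y57.FD.Mom.val
  rw [Fin.sum_univ_three]
  simp
  ring

lemma trace_eq (p : ℕ) (hp : p.Prime) (m : Fin 3 → ℕ) :
    (trace p (fun i => (m i : ℤ)) : ℝ) / (2 * Real.sqrt p) = - Pool.Agent.Y57.FD.HM.tr 1 p m / 2 := by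
  classical
  haveI : Fact p.Prime := ⟨hp⟩
  unfold trace Pool.Agent.Y57.FD.HM.tr
  by_cases h2 : p = 2
  · rw [if_neg (fun h => h.1 h2), dif_neg (fun h => h.2 h2)]
    simp
  · rw [dif_pos ⟨hp, h2⟩]
    by_cases h3 : (Pool.Agent.Y57.FD.HM.pol p (D := 2 * 1 + 1) (fun i => ((m i : ℕ) : ZMod p))).Separable
    · have h4 : Smooth p (fun i => (m i : ℤ)) := ⟨h2, by rw [pol_eq] at h3; push_cast; exact h3⟩
      rw [if_pos h4, if_pos h3]
      unfold points
      push_cast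
      rw [card_affine p h2 (fun x => x ^ 3 + (m 2 : ZMod p) * x ^ 2 + (m 1 : ZMod p) * x + (m 0 : ZMod p))]
      simp only [val_eq, ZMod.card]
      have hs : 0 < Real.sqrt p := Real.sqrt_pos.2 (by exact_mod_cast hp.pos)
      field_simp
      ring
    · have h4 : ¬ Smooth p (fun i => (m i : ℤ)) := fun h => h3 (by rw [pol_eq]; have := h.2; push_cast at this; exact this)
      rw [if_neg h4, if_neg h3]
      simp

lemma cos_angle (p : ℕ) (hp : p.Prime) (m : Fin 3 → ℕ) :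
    Real.cos (Real.pi * angle p (fun i => (m i : ℤ))) = - Pool.Agent.Y57.FD.HM.tr 1 p m / 2 := by
  unfold angle
  rw [mul_div_cancel₀ _ Real.pi_ne_zero, trace_eq p hp m]
  have h := abs_le.1 (Pool.Agent.Y57.FD.HM.tr_le 1 p m)
  push_cast at h
  apply Real.cos_arccos <;> linarith

/-- the cosine as a function of the coefficients -/
noncomputable def cosA (p : ℕ) (t : Fin 3 → ℤ) : ℝ := Real.cos (Real.pi * angle p t)

lemma perZ_cosA (p : ℕ) : PerZ p (cosA p) := by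
  intro t t' h
  unfold cosA angle
  rw [trace_congr p t t' h]

lemma meanZ_eq (p : ℕ) (F : (Fin 3 → ℤ) → ℝ) : meanZ p F = Pool.Agent.TH894.NE.mean 3 p (fun n => F (fun i => (n i : ℤ))) := by
  unfold meanZ Pool.Agent.TH894.NE.mean Pool.Agent.TH894.NE.box
  rw [one_div_mul_eq_div]

lemma mean_cosA : ∃ C : ℝ, 0 ≤ C ∧ ∀ p : ℕ, p.Prime → |meanZ p (cosA p)| ≤ C / p ∧ |meanZ p (fun t => cosA p t ^ 2) - 1 / 4| ≤ C / p := by
  obtain ⟨C1, hC1, h1⟩ := Pool.Agent.Y57.FD.HM.tr_mean 1 1 (by norm_num)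
  obtain ⟨C2, hC2, h2⟩ := Pool.Agent.Y57.FD.HM.tr_mean 1 2 (by norm_num)
  have u1 : Pool.Agent.Y57.FD.Mom.usp 1 1 = 0 := by
    unfold Pool.Agent.Y57.FD.Mom.usp Pool.Agent.Y57.FD.Mom.normal
    rw [if_neg (by decide), if_neg (by decide)]
    norm_num
  have u2 : Pool.Agent.Y57.FD.Mom.usp 1 2 = 1 := by
    unfold Pool.Agent.Y57.FD.Mom.usp Pool.Agent.Y57.FD.Mom.normal
    rw [if_pos (by decide), if_neg (by decide)]
    simp [Nat.doubleFactorial]
  refine ⟨C1 + C2, by positivity, fun p hp => ?_⟩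
  have hp0 : (0 : ℝ) < p := by exact_mod_cast hp.pos
  have a1 := h1 p hp
  have a2 := h2 p hp
  rw [u1, sub_zero] at a1
  rw [u2] at a2
  constructor
  · rw [meanZ_eq]
    have e : (fun n : Fin 3 → ℕ => cosA p (fun i => (n i : ℤ))) = fun n => (-1 / 2) * Pool.Agent.Y57.FD.HM.tr 1 p n ^ 1 := by
      funext n
      unfold cosA
      rw [cos_angle p hp n]
      ring
    rw [e, Pool.Agent.TH894.NE.mean_mul, abs_mul]
    have e2 : |(-1 / 2 : ℝ)| = 1 / 2 := by norm_num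
    rw [e2]
    have h3 : (0 : ℝ) ≤ C1 / p := by positivity
    have h4 : (0 : ℝ) ≤ C2 / p := by positivity
    have h5 : (C1 + C2) / p = C1 / p + C2 / p := add_div _ _ _
    rw [h5]
    have h6 : |Pool.Agent.TH894.NE.mean 3 p (fun n => Pool.Agent.Y57.FD.HM.tr 1 p n ^ 1)| ≤ C1 / p := a1
    linarith
  · rw [meanZ_eq]
    have e : (fun n : Fin 3 → ℕ => cosA p (fun i => (n i : ℤ)) ^ 2) = fun n => (1 / 4) * Pool.Agent.Y57.FD.HM.tr 1 p n ^ 2 := by
      funext n
      unfold cosA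
      rw [cos_angle p hp n]
      ring
    rw [e, Pool.Agent.TH894.NE.mean_mul]
    have e2 : 1 / 4 * Pool.Agent.TH894.NE.mean 3 p (fun n => Pool.Agent.Y57.FD.HM.tr 1 p n ^ 2) - 1 / 4 =
        1 / 4 * (Pool.Agent.TH894.NE.mean 3 p (fun n => Pool.Agent.Y57.FD.HM.tr 1 p n ^ 2) - 1) := by ring
    rw [e2, abs_mul]
    have e3 : |(1 / 4 : ℝ)| = 1 / 4 := by norm_num
    rw [e3]
    have h3 : (0 : ℝ) ≤ C1 / p := by positivity
    have h4 : (0 : ℝ) ≤ C2 / p := by positivity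
    have h5 : (C1 + C2) / p = C1 / p + C2 / p := add_div _ _ _
    rw [h5]
    have h6 : |Pool.Agent.TH894.NE.mean 3 p (fun n => Pool.Agent.Y57.FD.HM.tr 1 p n ^ 2) - 1| ≤ C2 / p := a2
    linarith

lemma pr_ge (k : ℕ) : k + 1 ≤ pr k := by
  have h1 : StrictMono (Nat.nth Nat.Prime) := Nat.nth_strictMono Nat.infinite_setOfPred_prime
  induction k with
  | zero => exact (pr_prime 0).one_lt.le
  | succ k ih =>
      have h2 : pr k < pr (k + 1) := h1 (Nat.lt_succ_self k)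
      omega

/-- congruences for the values of polynomials -/
lemma eval_congr {d : ℕ} (q : ℤ) (f : MvPolynomial (Fin d) ℤ) (t t' : Fin d → ℤ) (h : ∀ i, q ∣ t i - t' i) :
    q ∣ MvPolynomial.eval t f - MvPolynomial.eval t' f := by
  induction f using MvPolynomial.induction_on with
  | C a => simp
  | add a b ha hb =>
      rw [map_add, map_add]
      have e : MvPolynomial.eval t a + MvPolynomial.eval t b - (MvPolynomial.eval t' a + MvPolynomial.eval t' b) =
        (MvPolynomial.eval t a - MvPolynomial.eval t' a) + (MvPolynomial.eval t b - MvPolynomial.eval t' b) := by ring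
      rw [e]
      exact dvd_add ha hb
  | mul_X a i ha =>
      rw [map_mul, map_mul, MvPolynomial.eval_X, MvPolynomial.eval_X]
      have e : MvPolynomial.eval t a * t i - MvPolynomial.eval t' a * t' i =
        (MvPolynomial.eval t a - MvPolynomial.eval t' a) * t i + MvPolynomial.eval t' a * (t i - t' i) := by ring
      rw [e]
      exact dvd_add (ha.mul_right _) ((h i).mul_left _)

end Pool.Agent.K4H4.CL.Ell
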