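import Pool.Agent.K4H4.CL.Clt

set_option autoImplicit false

/-! The central limit theorem for bounded functions of the parameters at `r` consecutive primes. -/

namespace Pool.Agent.K4H4.CL
open Finset MeasureTheory ProbabilityTheory
open Pool.Agent.TH894.NE (box mem_box card_box Per mean two_mod mean_mono mean_const mean_add mean_mul)

variable {d : ℕ}

/-- the function depends on the residues modulo `q` -/
def PerZ (q : ℕ) (g : (Fin d → ℤ) → ℝ) : Prop := ∀ t t' : Fin d → ℤ, (∀ i, (q : ℤ) ∣ t i - t' i) → g t = g t'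

lemma PerZ.of_dvd {q Q : ℕ} (h : q ∣ Q) {g : (Fin d → ℤ) → ℝ} (hg : PerZ q g) : PerZ Q g :=
  fun t t' ht => hg t t' fun i => (Int.natCast_dvd_natCast.2 h).trans (ht i)

/-- the shifted function on the natural numbers -/
def sh (u : Fin d → ℤ) (g : (Fin d → ℤ) → ℝ) (n : Fin d → ℕ) : ℝ := g (fun i => u i + n i)

lemma per_sh {q : ℕ} {g : (Fin d → ℤ) → ℝ} (hg : PerZ q g) (u : Fin d → ℤ) : Per q (sh u g) := by
  intro n
  unfold sh
  apply hg
  intro i
  have h : (u i + (n i : ℤ)) - (u i + ((n i % q : ℕ) : ℤ)) = (n i : ℤ) - (n i : ℤ) % (q : ℤ) := by push_cast; ring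
  rw [h]
  exact Int.dvd_self_sub_emod

/-- the mean over the residues modulo `q` -/
noncomputable def meanZ (q : ℕ) (g : (Fin d → ℤ) → ℝ) : ℝ :=
  (∑ n ∈ Fintype.piFinset (fun _ : Fin d => range q), g (fun i => (n i : ℤ))) / (q : ℝ) ^ d

lemma mean_sh {q : ℕ} (hq : 1 ≤ q) {g : (Fin d → ℤ) → ℝ} (hg : PerZ q g) (u : Fin d → ℤ) : mean d q (sh u g) = meanZ q g := by
  unfold mean meanZ sh
  rw [one_div_mul_eq_div]
  congr 1
  have hq0 : (0 : ℤ) < q := by exact_mod_cast hq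
  refine sum_nbij' (fun n i => ((u i + (n i : ℤ)) % (q : ℤ)).toNat) (fun n i => (((n i : ℤ) - u i) % (q : ℤ)).toNat) ?_ ?_ ?_ ?_ ?_
  · intro n _
    rw [Fintype.mem_piFinset]
    intro i
    rw [mem_range]
    have h1 := Int.emod_nonneg (u i + (n i : ℤ)) hq0.ne'
    have h2 := Int.emod_lt_of_pos (u i + (n i : ℤ)) hq0
    omega
  · intro n _
    rw [mem_box]
    intro i
    have h1 := Int.emod_nonneg ((n i : ℤ) - u i) hq0.ne'
    have h2 := Int.emod_lt_of_pos ((n i : ℤ) - u i) hq0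
    show (((n i : ℤ) - u i) % (q : ℤ)).toNat < q
    omega
  · intro n hn
    rw [mem_box] at hn
    funext i
    have h1 := Int.emod_nonneg (u i + (n i : ℤ)) hq0.ne'
    show ((((((u i + (n i : ℤ)) % (q : ℤ)).toNat : ℕ) : ℤ) - u i) % (q : ℤ)).toNat = n i
    rw [Int.toNat_of_nonneg h1, Int.emod_sub_emod]
    have h2 : u i + (n i : ℤ) - u i = n i := by ring
    rw [h2, Int.emod_eq_of_lt (by positivity) (by exact_mod_cast hn i)]
    rfl
  · intro n hn
    rw [Fintype.mem_piFinset] at hn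
    funext i
    have h1 := Int.emod_nonneg ((n i : ℤ) - u i) hq0.ne'
    show ((u i + (((((n i : ℤ) - u i) % (q : ℤ)).toNat : ℕ) : ℤ)) % (q : ℤ)).toNat = n i
    rw [Int.toNat_of_nonneg h1, Int.add_emod_emod]
    have h2 : u i + ((n i : ℤ) - u i) = n i := by ring
    rw [h2, Int.emod_eq_of_lt (by positivity) (by exact_mod_cast mem_range.1 (hn i))]
    rfl
  · intro n _
    apply hg
    intro i
    have h1 := Int.emod_nonneg (u i + (n i : ℤ)) hq0.ne'
    show (q : ℤ) ∣ u i + (n i : ℤ) - ((((u i + (n i : ℤ)) % (q : ℤ)).toNat : ℕ) : ℤ)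
    rw [Int.toNat_of_nonneg h1]
    exact Int.dvd_self_sub_emod

/-- the sum -/
def tot (g : ℕ → (Fin d → ℤ) → ℝ) (K : ℕ) (t : Fin d → ℤ) : ℝ := ∑ k ∈ range K, g k t

/-- the mean of the sum -/
noncomputable def mu (g : ℕ → (Fin d → ℤ) → ℝ) (r K : ℕ) : ℝ := meanZ (PI (range (K + r))) (tot g K)

/-- the variance of the sum -/
noncomputable def va (g : ℕ → (Fin d → ℤ) → ℝ) (r K : ℕ) : ℝ := meanZ (PI (range (K + r))) (fun t => (tot g K t - mu g r K) ^ 2)

/-- the centred summands -/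
noncomputable def cen (B : ℝ) (g : ℕ → (Fin d → ℤ) → ℝ) (u : Fin d → ℤ) (r : ℕ) (k : ℕ) (n : Fin d → ℕ) : ℝ :=
  (sh u (g k) n - mean d (PI (Ico k (k + r))) (sh u (g k))) / B

lemma perZ_tot {r K : ℕ} {g : ℕ → (Fin d → ℤ) → ℝ} (hg : ∀ k, PerZ (PI (Ico k (k + r))) (g k)) :
    PerZ (PI (range (K + r))) (tot g K) := by
  intro t t' ht
  unfold tot
  refine sum_congr rfl fun k hk => ?_
  rw [mem_range] at hk
  refine (hg k).of_dvd (PI_dvd ?_) t t' ht
  intro x hx
  rw [mem_Ico] at hx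
  rw [mem_range]
  omega

lemma mean_cen {r K : ℕ} {g : ℕ → (Fin d → ℤ) → ℝ} (hg : ∀ k, PerZ (PI (Ico k (k + r))) (g k)) (u : Fin d → ℤ) :
    ∑ k ∈ range K, mean d (PI (Ico k (k + r))) (sh u (g k)) = mu g r K := by
  unfold mu
  rw [← mean_sh (PI_pos _) (perZ_tot hg) u]
  have h1 := (sys d (K + r)).sum (range K) (fun k => sh u (g k))
  have e : sh u (tot g K) = fun n => ∑ k ∈ range K, sh u (g k) n := rfl
  rw [e]
  have h2 : mean d (PI (range (K + r))) (fun n => ∑ k ∈ range K, sh u (g k) n) = ∑ k ∈ range K, mean d (PI (range (K + r))) (sh u (g k)) := h1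
  rw [h2]
  refine sum_congr rfl fun k hk => ?_
  rw [mem_range] at hk
  refine (mean_eq ?_ _ (per_sh (hg k) u)).symm
  intro x hx
  rw [mem_Ico] at hx
  rw [mem_range]
  omega

lemma S_cen {r K : ℕ} (B : ℝ) {g : ℕ → (Fin d → ℤ) → ℝ} (hg : ∀ k, PerZ (PI (Ico k (k + r))) (g k)) (u : Fin d → ℤ) (n : Fin d → ℕ) :
    Sys.S (cen B g u r) K n = (tot g K (fun i => u i + n i) - mu g r K) / B := by
  unfold Sys.S cen
  rw [← sum_div, sum_sub_distrib, mean_cen hg u]
  rfl

lemma V_cen {r K : ℕ} (B : ℝ) {g : ℕ → (Fin d → ℤ) → ℝ} (hg : ∀ k, PerZ (PI (Ico k (k + r))) (g k)) (u : Fin d → ℤ) :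
    (sys d (K + r)).V (cen B g u r) K = va g r K / B ^ 2 := by
  have h1 : PerZ (PI (range (K + r))) (fun t => (tot g K t - mu g r K) ^ 2) := by
    intro t t' ht
    have := perZ_tot hg t t' ht
    simp only [this]
  unfold va Sys.V
  rw [← mean_sh (PI_pos _) h1 u]
  have e : (fun n => Sys.S (cen B g u r) K n ^ 2) = fun n => (1 / B ^ 2) * sh u (fun t => (tot g K t - mu g r K) ^ 2) n := by
    funext n
    rw [S_cen B hg u n, div_pow]
    unfold sh
    ring
  rw [e]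
  have h2 := (sys d (K + r)).mul (1 / B ^ 2) (sh u (fun t => (tot g K t - mu g r K) ^ 2))
  rw [h2, one_div_mul_eq_div]
  rfl

/-- the hypotheses, in general -/
lemma hyp_cen {r K : ℕ} (hr : 1 ≤ r) (B σ : ℝ) {g : ℕ → (Fin d → ℤ) → ℝ} (hg : ∀ k, PerZ (PI (Ico k (k + r))) (g k)) (u : Fin d → ℤ)
    (hb : ∀ k n, |cen B g u r k n| ≤ 1) (hσ : 1 ≤ σ)
    (hw : ∑ k ∈ range K, (sys d (K + r)).E (fun n => |cen B g u r k n|) ≤ σ ^ 2) : (sys d (K + r)).Hyp (cen B g u r) r K σ where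
  r1 := hr
  s1 := hσ
  L := le_rfl
  dep := by
    intro k
    show Per (PI (Ico k (k + r))) (cen B g u r k)
    intro n
    unfold cen
    rw [← per_sh (hg k) u n]
  bd := hb
  zero := by
    intro k hk
    show mean d (PI (range (K + r))) (cen B g u r k) = 0
    have h1 : (sys d (K + r)).E (fun n => sh u (g k) n - mean d (PI (Ico k (k + r))) (sh u (g k))) = 0 := by
      rw [(sys d (K + r)).sub, (sys d (K + r)).const]
      show mean d (PI (range (K + r))) (sh u (g k)) - _ = 0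
      rw [mean_eq (I := Ico k (k + r)) _ _ (per_sh (hg k) u), sub_self]
      intro x hx
      rw [mem_Ico] at hx
      rw [mem_range]
      omega
    have h2 := (sys d (K + r)).mul (1 / B) (fun n => sh u (g k) n - mean d (PI (Ico k (k + r))) (sh u (g k)))
    rw [h1, mul_zero] at h2
    have e : (fun n => 1 / B * (sh u (g k) n - mean d (PI (Ico k (k + r))) (sh u (g k)))) = cen B g u r k := by
      funext n
      unfold cen
      ring
    rw [e] at h2
    exact h2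
  w := hw

/-- the size of the primes -/
lemma pr_le (r : ℕ) : ∃ K₀ : ℕ, ∀ K : ℕ, K₀ ≤ K → (pr (K + r) : ℝ) ≤ (K : ℝ) ^ 3 := by
  have hp : ∀ K : ℕ, (pr K : ℝ) ≤ 81 * (K + 2) ^ 2 := by
    intro K
    set P : ℕ := pr K with hP
    have hP2 : (2 : ℝ) ≤ P := by exact_mod_cast (pr_prime K).two_le
    have hpi : Nat.primeCounting P = K + 1 := by
      have h1 : Nat.primeCounting' (pr K) = K := Nat.primeCounting'_nth_eq K
      have h2 : Nat.primeCounting P = Nat.primeCounting' (P + 1) := rfl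
      rw [h2]
      unfold Nat.primeCounting' at h1 ⊢
      rw [Nat.count_succ, h1, if_pos (pr_prime K)]
    have hge := Chebyshev.pi_ge P
    rw [hpi] at hge
    have hlogP : 0 < Real.log P := Real.log_pos (by linarith)
    have hK1 : (1 : ℝ) ≤ (K + 1 : ℕ) := by exact_mod_cast (by omega : 1 ≤ K + 1)
    rw [div_le_iff₀ hlogP] at hge
    have hlog1 : Real.log (P + 1) ≤ 2 * Real.log P := by
      rw [← Real.log_rpow (by linarith)]
      apply Real.log_le_log (by linarith)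
      norm_num
      nlinarith
    have hl2 : (0.6931471803 : ℝ) < Real.log 2 := Real.log_two_gt_d9
    have h1 : (P : ℝ) * Real.log 2 ≤ 3 * (K + 1 : ℕ) * Real.log P := by nlinarith
    have h2 : (P : ℝ) ≤ 4.4 * (K + 1 : ℕ) * Real.log P := by nlinarith
    have hs : Real.log P ≤ 2 * √(P : ℝ) := by
      have h3 : Real.log (√(P : ℝ)) ≤ √(P : ℝ) - 1 :=
        Real.log_le_sub_one_of_pos (Real.sqrt_pos.2 (by linarith))
      rw [Real.log_sqrt (by linarith)] at h3
      linarith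
    have hsq : √(P : ℝ) * √(P : ℝ) = P := Real.mul_self_sqrt (by linarith)
    have hspos : 0 < √(P : ℝ) := Real.sqrt_pos.2 (by linarith)
    have h4 : √(P : ℝ) ≤ 9 * (K + 1 : ℕ) := by
      have : √(P : ℝ) * √(P : ℝ) ≤ (9 * (K + 1 : ℕ)) * √(P : ℝ) := by
        rw [hsq]
        nlinarith
      exact le_of_mul_le_mul_right this hspos
    rw [← hsq]
    push_cast at h4 ⊢
    have hK0 : (0 : ℝ) ≤ K := Nat.cast_nonneg _
    nlinarith
  refine ⟨r + 400, fun K hK => ?_⟩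
  have h1 := hp (K + r)
  have h2 : ((K + r : ℕ) : ℝ) + 2 ≤ 2 * K := by
    push_cast
    have : (r : ℝ) + 400 ≤ K := by exact_mod_cast hK
    linarith
  have hK4 : (400 : ℝ) ≤ K := by exact_mod_cast (by omega : 400 ≤ K)
  have h3 : 81 * (((K + r : ℕ) : ℝ) + 2) ^ 2 ≤ 81 * (2 * K) ^ 2 := by
    apply mul_le_mul_of_nonneg_left _ (by norm_num)
    exact pow_le_pow_left₀ (by positivity) h2 2
  nlinarith [sq_nonneg (K : ℝ)]

open Classical in
/-- **The normal law for sums of bounded functions at `r` consecutive primes.** -/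
theorem normal_law (d r : ℕ) (hr : 1 ≤ r) (η ε : ℝ) (hη : 0 < η) (hε : 0 < ε) : ∃ C : ℕ, ∀ g : ℕ → (Fin d → ℤ) → ℝ,
    (∀ k, PerZ (PI (Ico k (k + r))) (g k)) → (∀ k t, |g k t| ≤ 1) → ∀ (K : ℕ) (N : Fin d → ℕ) (u : Fin d → ℤ),
    C ≤ K → (∀ i, K ^ C ≤ N i) → η * K ≤ va g r K → ∀ x : ℝ,
      |((((par N).filter (fun n => tot g K (fun i => u i + n i) - mu g r K ≤ x * Real.sqrt (va g r K))).card : ℕ) : ℝ) -
        (∏ i, (N i : ℝ)) * (gaussianReal 0 1).real (Set.Iic x)| ≤ ε * ∏ i, (N i : ℝ) := by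
  obtain ⟨m, hm⟩ := exists_nat_ge ((12500 / (ε / 2)) ^ 2 + 1)
  have hm1 : 1 ≤ m := by
    have : (1 : ℝ) ≤ m := by
      have := sq_nonneg (12500 / (ε / 2))
      linarith
    exact_mod_cast this
  have hmε : 12500 / Real.sqrt m ≤ ε / 2 := by
    have h0 : 0 < Real.sqrt m := Real.sqrt_pos.2 (by exact_mod_cast hm1)
    rw [div_le_iff₀ h0, ← div_le_iff₀' (by positivity)]
    apply Real.le_sqrt_of_sq_le
    linarith
  obtain ⟨C₁, hC₁, hclt⟩ := clt d r m hm1 (η / 4) (by positivity)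
  obtain ⟨K₀, hK₀⟩ := pr_le r
  obtain ⟨K₁, hK₁⟩ := exists_nat_ge ((C₁ / (ε / 2)) ^ 2 + 1)
  refine ⟨K₀ + K₁ + (2 * m + 6 * m * r + 1), fun g hg hb K N u hK hN hV x => ?_⟩
  have hK0 : K₀ ≤ K := by omega
  have hK1' : 1 ≤ K := by omega
  have hK1 : (1 : ℝ) ≤ K := by exact_mod_cast hK1'
  obtain ⟨σ, hσ⟩ : ∃ σ, σ = Real.sqrt K := ⟨_, rfl⟩
  have hσ1 : 1 ≤ σ := by rw [hσ]; exact Real.one_le_sqrt.2 hK1
  have hσ2 : σ ^ 2 = K := by rw [hσ]; exact Real.sq_sqrt (by linarith)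
  have hsb : ∀ k n, |sh u (g k) n| ≤ 1 := fun k n => hb k _
  have hmb : ∀ k, |mean d (PI (Ico k (k + r))) (sh u (g k))| ≤ 1 := by
    intro k
    rw [abs_le]
    constructor
    · have h1 := mean_mono (d := d) (q := PI (Ico k (k + r))) (F := fun _ => (-1 : ℝ)) (G := sh u (g k)) (fun n => (abs_le.1 (hsb k n)).1)
      rwa [mean_const d _ (PI_pos _) (-1)] at h1
    · have h1 := mean_mono (d := d) (q := PI (Ico k (k + r))) (F := sh u (g k)) (G := fun _ => (1 : ℝ)) (fun n => (abs_le.1 (hsb k n)).2)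
      rwa [mean_const d _ (PI_pos _) 1] at h1
  have hcb : ∀ k n, |cen 2 g u r k n| ≤ 1 := by
    intro k n
    unfold cen
    rw [abs_div, abs_of_pos (by norm_num : (0 : ℝ) < 2), div_le_one (by norm_num)]
    have h1 := hsb k n
    have h2 := hmb k
    calc _ ≤ |sh u (g k) n| + |mean d (PI (Ico k (k + r))) (sh u (g k))| := abs_sub _ _
      _ ≤ 2 := by linarith
  have hhyp : (sys d (K + r)).Hyp (cen 2 g u r) r K σ := by
    refine hyp_cen hr 2 σ hg u hcb hσ1 ?_
    rw [hσ2]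
    calc ∑ k ∈ range K, (sys d (K + r)).E (fun n => |cen 2 g u r k n|) ≤ ∑ k ∈ range K, (1 : ℝ) := by
          apply sum_le_sum
          intro k _
          have := (sys d (K + r)).mono (fun n => |cen 2 g u r k n|) (fun _ => 1) (hcb k)
          rwa [(sys d (K + r)).one] at this
      _ = K := by simp
  have hVc := V_cen (K := K) 2 hg u
  have hVη : η / 4 * σ ^ 2 ≤ (sys d (K + r)).V (cen 2 g u r) K := by
    rw [hVc, hσ2]
    linarith
  have hNN : ∀ i, (K : ℝ) ^ (2 * m) * (pr (K + r) : ℝ) ^ (2 * m * r) * σ ≤ N i := by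
    intro i
    have h1 : (pr (K + r) : ℝ) ^ (2 * m * r) ≤ ((K : ℝ) ^ 3) ^ (2 * m * r) := pow_le_pow_left₀ (Nat.cast_nonneg _) (hK₀ K hK0) _
    have h2 : σ ≤ K := by rw [← hσ2]; nlinarith
    calc (K : ℝ) ^ (2 * m) * (pr (K + r) : ℝ) ^ (2 * m * r) * σ ≤ (K : ℝ) ^ (2 * m) * ((K : ℝ) ^ 3) ^ (2 * m * r) * K :=
          mul_le_mul (mul_le_mul_of_nonneg_left h1 (by positivity)) h2 (by linarith) (by positivity)
      _ = (K : ℝ) ^ (2 * m + 6 * m * r + 1) := by
          rw [← pow_mul, ← pow_add, ← pow_succ]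
          congr 1
          ring
      _ ≤ (K : ℝ) ^ (K₀ + K₁ + (2 * m + 6 * m * r + 1)) := pow_le_pow_right₀ hK1 (by omega)
      _ ≤ N i := by exact_mod_cast hN i
  have h1 := hclt (cen 2 g u r) K σ hhyp hVη N hNN x
  have hva : 0 < va g r K := lt_of_lt_of_le (by positivity) hV
  have hfil : (par N).filter (fun n => Sys.S (cen 2 g u r) K n / Real.sqrt ((sys d (K + r)).V (cen 2 g u r) K) ≤ x) =
      (par N).filter (fun n => tot g K (fun i => u i + n i) - mu g r K ≤ x * Real.sqrt (va g r K)) := by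
    apply filter_congr
    intro n _
    rw [hVc, S_cen 2 hg u n]
    have e : Real.sqrt (va g r K / 2 ^ 2) = Real.sqrt (va g r K) / 2 := by
      rw [Real.sqrt_div hva.le, Real.sqrt_sq (by norm_num)]
    have hs : 0 < Real.sqrt (va g r K) := Real.sqrt_pos.2 hva
    rw [e, div_div_div_cancel_right₀ (by norm_num), div_le_iff₀ hs]
  rw [hfil] at h1
  refine h1.trans ?_
  apply mul_le_mul_of_nonneg_right _ (prod_nonneg fun _ _ => Nat.cast_nonneg _)
  have h2 : C₁ / σ ≤ ε / 2 := by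
    rw [div_le_iff₀ (by linarith), ← div_le_iff₀' (by positivity), hσ]
    apply Real.le_sqrt_of_sq_le
    have : (K₁ : ℝ) ≤ K := by exact_mod_cast (by omega : K₁ ≤ K)
    linarith
  linarith

end Pool.Agent.K4H4.CL
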