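import Pool.Agent.K4H4.CL.Mom
import Pool.Agent.TH894.NE2

set_option autoImplicit false

/-! Functions of the residues modulo the primes. -/

namespace Pool.Agent.K4H4.CL
open Finset
open Pool.Agent.TH894.NE (box mem_box card_box Per mean two_mod mean_mono mean_const mean_add mean_mul)

/-- the primes, numbered from `0` -/
noncomputable def pr (k : ℕ) : ℕ := Nat.nth Nat.Prime k

lemma pr_prime (k : ℕ) : (pr k).Prime := Nat.prime_nth_prime k

lemma pr_inj {k l : ℕ} (h : pr k = pr l) : k = l := Nat.nth_injective Nat.infinite_setOfPred_prime h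

lemma pr_mono {k l : ℕ} (h : k ≤ l) : pr k ≤ pr l := (Nat.nth_monotone Nat.infinite_setOfPred_prime) h

/-- products of primes -/
noncomputable def PI (I : Finset ℕ) : ℕ := ∏ k ∈ I, pr k

lemma PI_pos (I : Finset ℕ) : 1 ≤ PI I :=
  Nat.one_le_iff_ne_zero.2 (prod_ne_zero_iff.2 fun k _ => (pr_prime k).ne_zero)

lemma PI_dvd {I J : Finset ℕ} (h : I ⊆ J) : PI I ∣ PI J := prod_dvd_prod_of_subset I J _ h

lemma PI_cop {I J : Finset ℕ} (h : Disjoint I J) : Nat.Coprime (PI I) (PI J) := by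
  unfold PI
  apply Nat.Coprime.prod_left
  intro i hi
  apply Nat.Coprime.prod_right
  intro j hj
  rw [Nat.coprime_primes (pr_prime i) (pr_prime j)]
  intro h2
  rw [pr_inj h2] at hi
  exact (disjoint_left.1 h hi) hj

lemma PI_union {I J : Finset ℕ} (h : I ⊆ J) : PI J = PI I * PI (J \ I) := by
  unfold PI
  rw [mul_comm, prod_sdiff h]

variable {d : ℕ}

lemma mean_sub {I J : Finset ℕ} (h : I ⊆ J) (f g : (Fin d → ℕ) → ℝ) (hf : Per (PI I) f) (hg : Per (PI (J \ I)) g) :
    mean d (PI J) (fun n => f n * g n) = mean d (PI I) f * mean d (PI (J \ I)) g := by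
  unfold mean
  rw [PI_union h, two_mod (PI I) (PI (J \ I)) (PI_pos _) (PI_pos _) (PI_cop disjoint_sdiff) f g hf hg]
  push_cast
  rw [mul_pow]
  have h1 : (PI I : ℝ) ≠ 0 := by
    have := PI_pos I
    exact_mod_cast (by omega : PI I ≠ 0)
  have h2 : (PI (J \ I) : ℝ) ≠ 0 := by
    have := PI_pos (J \ I)
    exact_mod_cast (by omega : PI (J \ I) ≠ 0)
  field_simp

lemma per_const (q : ℕ) (c : ℝ) : Per q (fun _ : Fin d → ℕ => c) := fun _ => rfl

lemma mean_eq {I J : Finset ℕ} (h : I ⊆ J) (f : (Fin d → ℕ) → ℝ) (hf : Per (PI I) f) :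
    mean d (PI J) f = mean d (PI I) f := by
  have h1 := mean_sub h f (fun _ => 1) hf (per_const _ 1)
  rw [mean_const d _ (PI_pos _) 1, mul_one] at h1
  rw [← h1]
  congr 1
  funext n
  rw [mul_one]

lemma mean_ind {I I' J : Finset ℕ} (h : I ⊆ J) (h' : I' ⊆ J) (hd : Disjoint I I') (f g : (Fin d → ℕ) → ℝ)
    (hf : Per (PI I) f) (hg : Per (PI I') g) :
    mean d (PI J) (fun n => f n * g n) = mean d (PI J) f * mean d (PI J) g := by
  have h1 : I' ⊆ J \ I := by
    intro x hx
    rw [mem_sdiff]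
    exact ⟨h' hx, fun h2 => (disjoint_left.1 hd h2) hx⟩
  rw [mean_sub h f g hf (hg.of_dvd (PI_dvd h1)), mean_eq h f hf, mean_eq h' g hg, mean_eq h1 g hg]

lemma Per.add {q : ℕ} {f g : (Fin d → ℕ) → ℝ} (hf : Per q f) (hg : Per q g) : Per q (fun n => f n + g n) := by
  intro n
  show f n + g n = f (fun i => n i % q) + g (fun i => n i % q)
  rw [← hf n, ← hg n]

lemma Per.mul {q : ℕ} {f g : (Fin d → ℕ) → ℝ} (hf : Per q f) (hg : Per q g) : Per q (fun n => f n * g n) := by
  intro n
  show f n * g n = f (fun i => n i % q) * g (fun i => n i % q)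
  rw [← hf n, ← hg n]

lemma Per.abs' {q : ℕ} {f : (Fin d → ℕ) → ℝ} (hf : Per q f) : Per q (fun n => |f n|) := by
  intro n
  show |f n| = |f (fun i => n i % q)|
  rw [← hf n]

/-- the system of the residues modulo the first `L` primes -/
noncomputable def sys (d L : ℕ) : Sys (Fin d → ℕ) where
  E := mean d (PI (range L))
  add := fun f g => mean_add f g
  mul := fun c f => mean_mul c f
  one := mean_const d _ (PI_pos _) 1
  mono := fun _ _ h => mean_mono h
  L := L
  Dep := fun a b f => Per (PI (Ico a b)) f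
  dconst := fun _ _ c => per_const _ c
  dadd := fun hf hg => Per.add hf hg
  dmul := fun hf hg => Per.mul hf hg
  dabs := fun hf => Per.abs' hf
  dmono := fun h1 h2 hf => hf.of_dvd (PI_dvd (Ico_subset_Ico h1 h2))
  ind := by
    intro a b c f g hab hbc hcL hf hg
    refine mean_ind ?_ ?_ ?_ f g hf hg
    · intro x hx
      rw [mem_Ico] at hx
      rw [mem_range]
      omega
    · intro x hx
      rw [mem_Ico] at hx
      rw [mem_range]
      omega
    · rw [disjoint_left]
      intro x hx hx'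
      rw [mem_Ico] at hx hx'
      omega

/-- the box of the parameters -/
def par (N : Fin d → ℕ) : Finset (Fin d → ℕ) := Fintype.piFinset (fun i => range (N i))

lemma card_par (N : Fin d → ℕ) : (par N).card = ∏ i, N i := by
  unfold par
  rw [Fintype.card_piFinset]
  exact prod_congr rfl fun i _ => card_range _

lemma count_res (N q ρ : ℕ) (hq : 1 ≤ q) (hρ : ρ < q) : |((((range N).filter (fun n => n % q = ρ)).card : ℕ) : ℝ) - (N : ℝ) / q| ≤ 1 := by
  have h1 : ((range N).filter (fun n => n % q = ρ)).card = Nat.count (fun n => n ≡ ρ [MOD q]) N := by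
    rw [Nat.count_eq_card_filter_range]
    congr 1
    apply filter_congr
    intro n _
    unfold Nat.ModEq
    rw [Nat.mod_eq_of_lt hρ]
  rw [h1, Nat.count_modEq_card N (by omega : 0 < q) ρ]
  have hq0 : (0 : ℝ) < q := by exact_mod_cast (by omega : 0 < q)
  have h2 : ((N / q : ℕ) : ℝ) ≤ (N : ℝ) / q := Nat.cast_div_le
  have h3 : (N : ℝ) / q < ((N / q : ℕ) : ℝ) + 1 := by
    rw [div_lt_iff₀ hq0]
    have h4 := Nat.lt_mul_div_succ N (by omega : 0 < q)
    have h5 : (N : ℝ) < (q : ℝ) * ((N / q : ℕ) + 1) := by exact_mod_cast h4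
    linarith
  rw [abs_le]
  split_ifs
  · push_cast at *
    constructor <;> linarith
  · push_cast at *
    constructor <;> linarith

lemma prod_close {ι : Type} (I : Finset ι) (x y : ι → ℝ) (η : ℝ) (hη : 0 ≤ η) (hy : ∀ i ∈ I, 0 ≤ y i)
    (h : ∀ i ∈ I, |x i - y i| ≤ η * y i) : |∏ i ∈ I, x i - ∏ i ∈ I, y i| ≤ ((1 + η) ^ I.card - 1) * ∏ i ∈ I, y i := by
  classical
  induction I using Finset.induction_on with
  | empty => simp
  | insert a I ha ih =>
      have ih' := ih (fun i hi => hy i (mem_insert_of_mem hi)) (fun i hi => h i (mem_insert_of_mem hi))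
      rw [prod_insert ha, prod_insert ha, card_insert_of_notMem ha]
      have hP : 0 ≤ ∏ i ∈ I, y i := prod_nonneg fun i hi => hy i (mem_insert_of_mem hi)
      have h1 := h a (mem_insert_self a I)
      have h0 := hy a (mem_insert_self a I)
      have e : x a * ∏ i ∈ I, x i - y a * ∏ i ∈ I, y i = x a * (∏ i ∈ I, x i - ∏ i ∈ I, y i) + (x a - y a) * ∏ i ∈ I, y i := by ring
      rw [e]
      refine (abs_add_le _ _).trans ?_
      rw [abs_mul, abs_mul, abs_of_nonneg hP]
      have h2 : |x a| ≤ (1 + η) * y a := by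
        have h3 : x a = (x a - y a) + y a := by ring
        rw [h3]
        refine (abs_add_le _ _).trans ?_
        rw [abs_of_nonneg h0]
        linarith
      have h4 : 0 ≤ (1 + η) ^ I.card - 1 := by
        have := one_le_pow₀ (by linarith : (1 : ℝ) ≤ 1 + η) (n := I.card)
        linarith
      calc |x a| * |∏ i ∈ I, x i - ∏ i ∈ I, y i| + |x a - y a| * ∏ i ∈ I, y i ≤
          ((1 + η) * y a) * (((1 + η) ^ I.card - 1) * ∏ i ∈ I, y i) + (η * y a) * ∏ i ∈ I, y i :=
            add_le_add (mul_le_mul h2 ih' (abs_nonneg _) (by positivity)) (mul_le_mul_of_nonneg_right h1 hP)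
        _ = _ := by ring

lemma one_add_pow_sub (η : ℝ) (h0 : 0 ≤ η) (h1 : η ≤ 1) (n : ℕ) : (1 + η) ^ n - 1 ≤ 2 ^ n * η := by
  induction n with
  | zero => simp; exact h0
  | succ n ih =>
      have h2 : (1 + η) ^ n ≤ 2 ^ n := pow_le_pow_left₀ (by linarith) (by linarith) n
      have e : (1 + η) ^ (n + 1) - 1 = ((1 + η) ^ n - 1) + (1 + η) ^ n * η := by ring
      have e2 : (2 : ℝ) ^ (n + 1) * η = 2 ^ n * η + 2 ^ n * η := by ring
      rw [e, e2]
      have := mul_le_mul_of_nonneg_right h2 h0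
      linarith

/-- the average over a box of parameters -/
lemma box_avg (N : Fin d → ℕ) (q : ℕ) (hq : 1 ≤ q) (η : ℝ) (hη0 : 0 ≤ η) (hη1 : η ≤ 1) (hN : ∀ i, (q : ℝ) ≤ η * N i)
    (H : (Fin d → ℕ) → ℝ) (hH : Per q H) (B : ℝ) (hB : ∀ n, |H n| ≤ B) :
    |∑ n ∈ par N, H n - (∏ i, (N i : ℝ)) * mean d q H| ≤ B * (2 ^ d * η) * ∏ i, (N i : ℝ) := by
  classical
  have hq0 : (0 : ℝ) < q := by exact_mod_cast (by omega : 0 < q)
  have hB0 : 0 ≤ B := (abs_nonneg _).trans (hB fun _ => 0)
  obtain ⟨c, hc⟩ : ∃ c : Fin d → ℕ → ℝ, c = fun i ρ => ((((range (N i)).filter (fun n => n % q = ρ)).card : ℕ) : ℝ) := ⟨_, rfl⟩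
  have h1 : ∑ n ∈ par N, H n = ∑ ρ ∈ box d q, H ρ * ∏ i, c i (ρ i) := by
    have hmaps : ∀ n ∈ par N, (fun i => n i % q) ∈ box d q := by
      intro n _
      rw [mem_box]
      exact fun i => Nat.mod_lt _ (by omega)
    rw [← sum_fiberwise_of_maps_to hmaps]
    refine sum_congr rfl fun ρ hρ => ?_
    have h2 : ∀ n ∈ (par N).filter (fun n => (fun i => n i % q) = ρ), H n = H ρ := by
      intro n hn
      rw [mem_filter] at hn
      rw [hH n, hn.2]
    rw [sum_congr rfl h2, sum_const, nsmul_eq_mul, mul_comm]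
    congr 1
    have h3 : (par N).filter (fun n => (fun i => n i % q) = ρ) =
        Fintype.piFinset (fun i => (range (N i)).filter (fun n => n % q = ρ i)) := by
      ext n
      simp only [par, mem_filter, Fintype.mem_piFinset, funext_iff]
      exact ⟨fun h i => ⟨h.1 i, h.2 i⟩, fun h => ⟨fun i => (h i).1, fun i => (h i).2⟩⟩
    rw [h3, Fintype.card_piFinset, hc]
    push_cast
    rfl
  have h2 : (∏ i, (N i : ℝ)) * mean d q H = ∑ ρ ∈ box d q, H ρ * ∏ i, ((N i : ℝ) / q) := by
    unfold mean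
    rw [← sum_mul, prod_div_distrib, prod_const, card_univ, Fintype.card_fin]
    field_simp
  rw [h1, h2, ← sum_sub_distrib]
  refine (abs_sum_le_sum_abs _ _).trans ?_
  have h3 : ∀ ρ ∈ box d q, |H ρ * ∏ i, c i (ρ i) - H ρ * ∏ i, ((N i : ℝ) / q)| ≤ B * ((2 ^ d * η) * ((∏ i, (N i : ℝ)) / (q : ℝ) ^ d)) := by
    intro ρ hρ
    rw [← mul_sub, abs_mul]
    apply mul_le_mul (hB ρ) _ (abs_nonneg _) hB0
    have h4 := prod_close (univ : Finset (Fin d)) (fun i => c i (ρ i)) (fun i => (N i : ℝ) / q) η hη0 (fun i _ => by positivity)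
      (fun i _ => by
        have h5 := count_res (N i) q (ρ i) hq ((mem_box.1 hρ) i)
        rw [hc]
        refine h5.trans ?_
        rw [mul_div_assoc', le_div_iff₀ hq0, one_mul]
        exact hN i)
    rw [card_univ, Fintype.card_fin] at h4
    refine h4.trans ?_
    have h6 : ∏ i, ((N i : ℝ) / q) = (∏ i, (N i : ℝ)) / (q : ℝ) ^ d := by
      rw [prod_div_distrib, prod_const, card_univ, Fintype.card_fin]
    rw [h6]
    exact mul_le_mul_of_nonneg_right (one_add_pow_sub η hη0 hη1 d) (by positivity)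
  refine (sum_le_sum h3).trans ?_
  rw [sum_const, card_box, nsmul_eq_mul]
  push_cast
  apply le_of_eq
  field_simp

end Pool.Agent.K4H4.CL
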