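import Pool.Agent.K4H4.CL.Sys

set_option autoImplicit false

/-! The growth of the moments: one step, and the conclusion. -/

namespace Pool.Agent.K4H4.CL
open Finset

namespace Sys
variable {Ω : Type}

/-- the mean square -/
noncomputable def V (M : Sys Ω) (Y : ℕ → Ω → ℝ) (n : ℕ) : ℝ := M.E (fun ω => S Y n ω ^ 2)

/-- one step of the recurrence of the moments -/
lemma step (r a : ℕ) : ∃ C : ℝ, 0 ≤ C ∧ ∀ (M : Sys Ω) (Y : ℕ → Ω → ℝ) (K : ℕ) (σ : ℝ), M.Hyp Y r K σ → ∀ B : ℝ, 0 ≤ B →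
    ∀ n, n < K → (∀ m, m ≤ n → M.E (fun ω => |S Y m ω| ^ a) ≤ B) →
    |M.V Y (n + 1) - M.V Y n| ≤ (1 + 2 * r) * M.wt Y n ∧
    |M.E (fun ω => S Y (n + 1) ω ^ (a + 3)) - M.E (fun ω => S Y n ω ^ (a + 3)) -
      ((a + 3).choose 2 : ℕ) * (M.V Y (n + 1) - M.V Y n) * M.E (fun ω => S Y n ω ^ (a + 1))| ≤ C * (1 + B) * M.wt Y n := by
  by_cases hr : 1 ≤ r
  swap
  · refine ⟨0, le_rfl, fun M Y K σ h => absurd h.r1 hr⟩
  have hrr : (1 : ℝ) ≤ r := by exact_mod_cast hr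
  obtain ⟨C0, hC0, t0⟩ := tay0 (2 * r) (by linarith) a
  obtain ⟨C1, hC1, t1⟩ := tay1 (2 * r) (by linarith) a
  obtain ⟨C2, hC2, t2⟩ := tay2 (2 * r) (by linarith) a
  obtain ⟨c2, hc2⟩ : ∃ c2 : ℝ, c2 = ((a + 3).choose 2 : ℕ) := ⟨_, rfl⟩
  have hc20 : 0 ≤ c2 := by rw [hc2]; exact Nat.cast_nonneg _
  have hca : ((a : ℝ) + 3) * (a + 2) = 2 * c2 := by
    have h1 := Nat.choose_two_right (a + 3)
    have h2 : (a + 3) * (a + 3 - 1) / 2 * 2 = (a + 3) * (a + 3 - 1) := Nat.div_mul_cancel (Nat.even_mul_pred_self (a + 3)).two_dvd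
    rw [← h1] at h2
    have h3 : a + 3 - 1 = a + 2 := by omega
    rw [h3] at h2
    have h4 : (((a + 3).choose 2 : ℕ) : ℝ) * 2 = (a + 3) * (a + 2) := by exact_mod_cast h2
    rw [hc2]
    linarith
  -- the total constant
  obtain ⟨C, hC⟩ : ∃ C : ℝ, C = (a + 3) * (C1 * r ^ 2 + (a + 2) * (C0 * r * r + r * (C0 * (2 * r))) ) +
      c2 * (C0 * r + C0 * (2 * r)) + C2 * (2 ^ a * (1 + r ^ a)) := ⟨_, rfl⟩
  refine ⟨C, by rw [hC]; positivity, fun M Y K σ h B hB n hn hBm => ?_⟩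
  have hL := h.L
  obtain ⟨w, hw⟩ : ∃ w, w = M.wt Y n := ⟨_, rfl⟩
  have hw0 : 0 ≤ w := by rw [hw]; exact h.wt_nonneg n
  rw [← hw]
  -- the old sums
  obtain ⟨m1, hm1⟩ : ∃ m1, m1 = n + 1 - r := ⟨_, rfl⟩
  obtain ⟨m2, hm2⟩ : ∃ m2, m2 = m1 + 1 - r := ⟨_, rfl⟩
  have hm1n : m1 ≤ n := by omega
  have hm2n : m2 ≤ m1 := by omega
  obtain ⟨T, hT⟩ : ∃ T : Ω → ℝ, T = fun ω => ∑ k ∈ Ico m1 n, Y k ω := ⟨_, rfl⟩
  obtain ⟨T', hT'⟩ : ∃ T' : Ω → ℝ, T' = fun ω => ∑ k ∈ Ico m2 m1, Y k ω := ⟨_, rfl⟩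
  have hTb : ∀ ω, |T ω| ≤ r := by
    intro ω
    rw [hT]
    exact h.T_bd m1 n r (by exact_mod_cast (by omega : n - m1 ≤ r)) ω
  have hTb' : ∀ ω, |T' ω| ≤ r := by
    intro ω
    rw [hT']
    exact h.T_bd m2 m1 r (by exact_mod_cast (by omega : m1 - m2 ≤ r)) ω
  have hS1 : ∀ ω, S Y n ω = S Y m1 ω + T ω := fun ω => by rw [hT]; exact S_split m1 n hm1n ω
  have hS2 : ∀ ω, S Y m1 ω = S Y m2 ω + T' ω := fun ω => by rw [hT']; exact S_split m2 m1 hm2n ω
  have hYb := h.bd n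
  -- dependence; if `m1 = 0` the sum is empty
  have dS1 : M.Dep 0 n (S Y m1) := by
    by_cases h0 : m1 = 0
    · rw [h0]
      have e : S Y 0 = fun _ => (0 : ℝ) := by funext ω; simp [S]
      rw [e]
      exact M.dconst 0 n 0
    · exact h.dep_S m1 n (by omega)
  have dS2 : M.Dep 0 m1 (S Y m2) := by
    by_cases h0 : m2 = 0
    · rw [h0]
      have e : S Y 0 = fun _ => (0 : ℝ) := by funext ω; simp [S]
      rw [e]
      exact M.dconst 0 m1 0
    · exact h.dep_S m2 m1 (by omega)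
  have dS2n : M.Dep 0 n (S Y m2) := M.dmono le_rfl hm1n dS2
  have dY : M.Dep n (n + r) (Y n) := h.dep n
  have dYa : M.Dep n (n + r) (fun ω => |Y n ω|) := M.dabs dY
  have dT : M.Dep m1 (n + r) T := by
    rw [hT]
    apply M.dsum
    intro k hk
    rw [mem_Ico] at hk
    exact M.dmono (by omega) (by omega) (h.dep k)
  have dYm : M.Dep m1 (n + r) (Y n) := M.dmono hm1n le_rfl dY
  -- products with |Y|
  have hon : ∀ m, M.Dep 0 n (S Y m) → m ≤ n → M.E (fun ω => (1 + |S Y m ω| ^ a) * |Y n ω|) ≤ (1 + B) * w := by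
    intro m hd hmn
    have h1 : M.Dep 0 n (fun ω => 1 + |S Y m ω| ^ a) := M.dadd (M.dconst 0 n 1) (M.dpow (M.dabs hd) a)
    rw [M.ind (Nat.zero_le _) (by omega) (by omega) h1 dYa, M.add, M.one]
    have e : M.E (fun ω => |Y n ω|) = w := by rw [hw]; rfl
    rw [e]
    exact mul_le_mul_of_nonneg_right (by have := hBm m hmn; linarith) hw0
  have e1w : M.E (fun ω => |Y n ω|) = w := by rw [hw]; rfl
  have hTY : |M.E (fun ω => T ω * Y n ω)| ≤ r * w := by
    refine (M.bd _ (fun ω => r * |Y n ω|) fun ω => ?_).trans (le_of_eq ?_)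
    · rw [abs_mul]
      exact mul_le_mul_of_nonneg_right (hTb ω) (abs_nonneg _)
    · rw [M.mul, e1w]
  have hYY : |M.E (fun ω => Y n ω ^ 2)| ≤ w := by
    refine (M.bd _ (fun ω => |Y n ω|) fun ω => ?_).trans (le_of_eq e1w)
    rw [abs_pow]
    have := hYb ω
    have := abs_nonneg (Y n ω)
    nlinarith
  -- the increment of the variance
  have hS1Y : M.E (fun ω => S Y m1 ω * Y n ω) = 0 := by
    rw [M.ind (Nat.zero_le _) (by omega) (by omega) dS1 dY, h.zero n hn, mul_zero]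
  have hv : M.V Y (n + 1) - M.V Y n = M.E (fun ω => Y n ω ^ 2) + 2 * M.E (fun ω => T ω * Y n ω) := by
    unfold V
    have e : (fun ω => S Y (n + 1) ω ^ 2) = fun ω => S Y n ω ^ 2 + (Y n ω ^ 2 + (2 * (S Y m1 ω * Y n ω) + 2 * (T ω * Y n ω))) := by
      funext ω
      rw [S_succ]
      have := hS1 ω
      rw [this]
      ring
    rw [e, M.add (fun ω => S Y n ω ^ 2), M.add (fun ω => Y n ω ^ 2), M.add (fun ω => 2 * (S Y m1 ω * Y n ω)), M.mul, M.mul, hS1Y]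
    ring
  refine ⟨?_, ?_⟩
  · rw [hv]
    refine (abs_add_le _ _).trans ?_
    rw [abs_mul, abs_of_pos (by norm_num : (0 : ℝ) < 2)]
    linarith
  -- difference of the moments of order a + 1
  have hd : ∀ (m : ℕ) (U : Ω → ℝ), m ≤ n → (∀ ω, S Y n ω = S Y m ω + U ω) → (∀ ω, |U ω| ≤ 2 * r) →
      |M.E (fun ω => S Y n ω ^ (a + 1)) - M.E (fun ω => S Y m ω ^ (a + 1))| ≤ C0 * (2 * r) * (1 + B) := by
    intro m U hmn hSU hU
    rw [← M.sub]
    refine (M.bd _ (fun ω => (C0 * (2 * r)) * (1 + |S Y m ω| ^ a)) fun ω => ?_).trans ?_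
    · rw [hSU ω]
      refine (t0 _ _ (hU ω)).trans ?_
      have h1 : 0 ≤ C0 * (1 + |S Y m ω| ^ a) := by positivity
      calc C0 * (1 + |S Y m ω| ^ a) * |U ω| ≤ C0 * (1 + |S Y m ω| ^ a) * (2 * r) := mul_le_mul_of_nonneg_left (hU ω) h1
        _ = _ := by ring
    · rw [M.mul, M.add, M.one]
      apply mul_le_mul_of_nonneg_left _ (by positivity)
      have := hBm m hmn
      linarith
  have hdiff2 := hd m2 (fun ω => T' ω + T ω) (by omega) (fun ω => by rw [hS1, hS2]; ring)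
    (fun ω => (abs_add_le _ _).trans (by have := hTb ω; have := hTb' ω; linarith))
  have hdiff1 := hd m1 T (by omega) hS1 (fun ω => (hTb ω).trans (by linarith))
  -- first order term
  have hA : |M.E (fun ω => S Y n ω ^ (a + 2) * Y n ω) - (a + 2) * (M.E (fun ω => S Y n ω ^ (a + 1)) * M.E (fun ω => T ω * Y n ω))| ≤
      (C1 * r ^ 2 + (a + 2) * (C0 * r * r + r * (C0 * (2 * r)))) * ((1 + B) * w) := by
    -- first Taylor
    have h1 : |M.E (fun ω => S Y n ω ^ (a + 2) * Y n ω) - (a + 2) * M.E (fun ω => S Y m1 ω ^ (a + 1) * (T ω * Y n ω))| ≤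
        C1 * r ^ 2 * ((1 + B) * w) := by
      have e0 : M.E (fun ω => S Y m1 ω ^ (a + 2) * Y n ω) = 0 := by
        rw [M.ind (Nat.zero_le _) (by omega) (by omega) (M.dpow dS1 (a + 2)) dY, h.zero n hn, mul_zero]
      have e1 : M.E (fun ω => S Y n ω ^ (a + 2) * Y n ω) - (a + 2) * M.E (fun ω => S Y m1 ω ^ (a + 1) * (T ω * Y n ω)) =
          M.E (fun ω => ((S Y m1 ω + T ω) ^ (a + 2) - S Y m1 ω ^ (a + 2) - (a + 2 : ℕ) * S Y m1 ω ^ (a + 1) * T ω) * Y n ω) := by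
        have e2 : (fun ω => ((S Y m1 ω + T ω) ^ (a + 2) - S Y m1 ω ^ (a + 2) - (a + 2 : ℕ) * S Y m1 ω ^ (a + 1) * T ω) * Y n ω) =
            fun ω => (S Y n ω ^ (a + 2) * Y n ω - S Y m1 ω ^ (a + 2) * Y n ω) - (a + 2) * (S Y m1 ω ^ (a + 1) * (T ω * Y n ω)) := by
          funext ω
          rw [hS1 ω]
          push_cast
          ring
        rw [e2, M.sub, M.sub, e0, M.mul]
        ring
      rw [e1]
      refine (M.bd _ (fun ω => (C1 * r ^ 2) * ((1 + |S Y m1 ω| ^ a) * |Y n ω|)) fun ω => ?_).trans ?_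
      · rw [abs_mul]
        have h2 := t1 (S Y m1 ω) (T ω) ((hTb ω).trans (by linarith))
        have h3 : |T ω| ^ 2 ≤ r ^ 2 := pow_le_pow_left₀ (abs_nonneg _) (hTb ω) 2
        have h4 : 0 ≤ C1 * (1 + |S Y m1 ω| ^ a) := by positivity
        calc _ ≤ (C1 * (1 + |S Y m1 ω| ^ a) * r ^ 2) * |Y n ω| :=
              mul_le_mul_of_nonneg_right (h2.trans (mul_le_mul_of_nonneg_left h3 h4)) (abs_nonneg _)
          _ = _ := by ring
      · rw [M.mul]
        exact mul_le_mul_of_nonneg_left (hon m1 dS1 hm1n) (by positivity)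
    -- second Taylor
    have h2 : |M.E (fun ω => S Y m1 ω ^ (a + 1) * (T ω * Y n ω)) - M.E (fun ω => S Y m2 ω ^ (a + 1)) * M.E (fun ω => T ω * Y n ω)| ≤
        C0 * r * r * ((1 + B) * w) := by
      have e0 : M.E (fun ω => S Y m2 ω ^ (a + 1) * (T ω * Y n ω)) = M.E (fun ω => S Y m2 ω ^ (a + 1)) * M.E (fun ω => T ω * Y n ω) :=
        M.ind (Nat.zero_le _) (by omega) (by omega) (M.dpow dS2 (a + 1)) (M.dmul dT dYm)
      rw [← e0, ← M.sub]
      refine (M.bd _ (fun ω => (C0 * r * r) * ((1 + |S Y m2 ω| ^ a) * |Y n ω|)) fun ω => ?_).trans ?_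
      · have e1 : S Y m1 ω ^ (a + 1) * (T ω * Y n ω) - S Y m2 ω ^ (a + 1) * (T ω * Y n ω) =
            ((S Y m2 ω + T' ω) ^ (a + 1) - S Y m2 ω ^ (a + 1)) * T ω * Y n ω := by rw [hS2 ω]; ring
        rw [e1, abs_mul, abs_mul]
        have h2 := t0 (S Y m2 ω) (T' ω) ((hTb' ω).trans (by linarith))
        have h4 : 0 ≤ C0 * (1 + |S Y m2 ω| ^ a) := by positivity
        have h5 := h2.trans (mul_le_mul_of_nonneg_left (hTb' ω) h4)
        calc _ ≤ (C0 * (1 + |S Y m2 ω| ^ a) * r) * r * |Y n ω| :=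
              mul_le_mul_of_nonneg_right (mul_le_mul h5 (hTb ω) (abs_nonneg _) (by positivity)) (abs_nonneg _)
          _ = _ := by ring
      · rw [M.mul]
        exact mul_le_mul_of_nonneg_left (hon m2 dS2n (by omega)) (by positivity)
    have h3 : |M.E (fun ω => S Y m2 ω ^ (a + 1)) * M.E (fun ω => T ω * Y n ω) - M.E (fun ω => S Y n ω ^ (a + 1)) * M.E (fun ω => T ω * Y n ω)| ≤
        r * (C0 * (2 * r)) * ((1 + B) * w) := by
      rw [← sub_mul, abs_mul, abs_sub_comm]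
      calc _ ≤ (C0 * (2 * r) * (1 + B)) * (r * w) := mul_le_mul hdiff2 hTY (abs_nonneg _) (by positivity)
        _ = _ := by ring
    have ha2 : (0 : ℝ) ≤ (a : ℝ) + 2 := by positivity
    have e : M.E (fun ω => S Y n ω ^ (a + 2) * Y n ω) - (a + 2) * (M.E (fun ω => S Y n ω ^ (a + 1)) * M.E (fun ω => T ω * Y n ω)) =
        (M.E (fun ω => S Y n ω ^ (a + 2) * Y n ω) - (a + 2) * M.E (fun ω => S Y m1 ω ^ (a + 1) * (T ω * Y n ω))) +
        (a + 2) * ((M.E (fun ω => S Y m1 ω ^ (a + 1) * (T ω * Y n ω)) - M.E (fun ω => S Y m2 ω ^ (a + 1)) * M.E (fun ω => T ω * Y n ω)) +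
          (M.E (fun ω => S Y m2 ω ^ (a + 1)) * M.E (fun ω => T ω * Y n ω) - M.E (fun ω => S Y n ω ^ (a + 1)) * M.E (fun ω => T ω * Y n ω))) := by ring
    rw [e]
    refine (abs_add_le _ _).trans ?_
    rw [abs_mul, abs_of_nonneg ha2]
    have h4 := (abs_add_le (M.E (fun ω => S Y m1 ω ^ (a + 1) * (T ω * Y n ω)) - M.E (fun ω => S Y m2 ω ^ (a + 1)) * M.E (fun ω => T ω * Y n ω))
      (M.E (fun ω => S Y m2 ω ^ (a + 1)) * M.E (fun ω => T ω * Y n ω) - M.E (fun ω => S Y n ω ^ (a + 1)) * M.E (fun ω => T ω * Y n ω))).trans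
      (add_le_add h2 h3)
    have h5 := mul_le_mul_of_nonneg_left h4 ha2
    calc _ ≤ C1 * r ^ 2 * ((1 + B) * w) + (a + 2) * (C0 * r * r * ((1 + B) * w) + r * (C0 * (2 * r)) * ((1 + B) * w)) := add_le_add h1 h5
      _ = _ := by ring
  -- second order term
  have hB2 : |M.E (fun ω => S Y n ω ^ (a + 1) * Y n ω ^ 2) - M.E (fun ω => S Y n ω ^ (a + 1)) * M.E (fun ω => Y n ω ^ 2)| ≤
      (C0 * r + C0 * (2 * r)) * ((1 + B) * w) := by
    have e0 : M.E (fun ω => S Y m1 ω ^ (a + 1) * Y n ω ^ 2) = M.E (fun ω => S Y m1 ω ^ (a + 1)) * M.E (fun ω => Y n ω ^ 2) :=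
      M.ind (Nat.zero_le _) (by omega) (by omega) (M.dpow dS1 (a + 1)) (M.dpow dY 2)
    have h1 : |M.E (fun ω => S Y n ω ^ (a + 1) * Y n ω ^ 2) - M.E (fun ω => S Y m1 ω ^ (a + 1) * Y n ω ^ 2)| ≤ C0 * r * ((1 + B) * w) := by
      rw [← M.sub]
      refine (M.bd _ (fun ω => (C0 * r) * ((1 + |S Y m1 ω| ^ a) * |Y n ω|)) fun ω => ?_).trans ?_
      · have e1 : S Y n ω ^ (a + 1) * Y n ω ^ 2 - S Y m1 ω ^ (a + 1) * Y n ω ^ 2 =
            ((S Y m1 ω + T ω) ^ (a + 1) - S Y m1 ω ^ (a + 1)) * Y n ω ^ 2 := by rw [hS1 ω]; ring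
        rw [e1, abs_mul, abs_pow]
        have h2 := t0 (S Y m1 ω) (T ω) ((hTb ω).trans (by linarith))
        have h4 : 0 ≤ C0 * (1 + |S Y m1 ω| ^ a) := by positivity
        have h5 := h2.trans (mul_le_mul_of_nonneg_left (hTb ω) h4)
        have h6 : |Y n ω| ^ 2 ≤ |Y n ω| := by
          have := hYb ω
          have := abs_nonneg (Y n ω)
          nlinarith
        calc _ ≤ (C0 * (1 + |S Y m1 ω| ^ a) * r) * |Y n ω| := mul_le_mul h5 h6 (by positivity) (by positivity)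
          _ = _ := by ring
      · rw [M.mul]
        exact mul_le_mul_of_nonneg_left (hon m1 dS1 hm1n) (by positivity)
    have h3 : |M.E (fun ω => S Y m1 ω ^ (a + 1)) * M.E (fun ω => Y n ω ^ 2) - M.E (fun ω => S Y n ω ^ (a + 1)) * M.E (fun ω => Y n ω ^ 2)| ≤
        C0 * (2 * r) * ((1 + B) * w) := by
      rw [← sub_mul, abs_mul, abs_sub_comm]
      calc _ ≤ (C0 * (2 * r) * (1 + B)) * w := mul_le_mul hdiff1 hYY (abs_nonneg _) (by positivity)
        _ = _ := by ring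
    rw [e0] at h1
    have := abs_sub_le (M.E (fun ω => S Y n ω ^ (a + 1) * Y n ω ^ 2)) (M.E (fun ω => S Y m1 ω ^ (a + 1)) * M.E (fun ω => Y n ω ^ 2))
      (M.E (fun ω => S Y n ω ^ (a + 1)) * M.E (fun ω => Y n ω ^ 2))
    calc _ ≤ C0 * r * ((1 + B) * w) + C0 * (2 * r) * ((1 + B) * w) := this.trans (add_le_add h1 h3)
      _ = _ := by ring
  -- third order term
  have hC3 : |M.E (fun ω => S Y (n + 1) ω ^ (a + 3)) - M.E (fun ω => S Y n ω ^ (a + 3)) - (a + 3) * M.E (fun ω => S Y n ω ^ (a + 2) * Y n ω) -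
      c2 * M.E (fun ω => S Y n ω ^ (a + 1) * Y n ω ^ 2)| ≤ C2 * (2 ^ a * (1 + r ^ a)) * ((1 + B) * w) := by
    have e1 : M.E (fun ω => S Y (n + 1) ω ^ (a + 3)) - M.E (fun ω => S Y n ω ^ (a + 3)) - (a + 3) * M.E (fun ω => S Y n ω ^ (a + 2) * Y n ω) -
      c2 * M.E (fun ω => S Y n ω ^ (a + 1) * Y n ω ^ 2) =
      M.E (fun ω => (S Y n ω + Y n ω) ^ (a + 3) - S Y n ω ^ (a + 3) - (a + 3 : ℕ) * S Y n ω ^ (a + 2) * Y n ω -
        ((a + 3).choose 2 : ℕ) * S Y n ω ^ (a + 1) * Y n ω ^ 2) := by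
      have e2 : (fun ω => (S Y n ω + Y n ω) ^ (a + 3) - S Y n ω ^ (a + 3) - (a + 3 : ℕ) * S Y n ω ^ (a + 2) * Y n ω -
        ((a + 3).choose 2 : ℕ) * S Y n ω ^ (a + 1) * Y n ω ^ 2) =
        fun ω => (S Y (n + 1) ω ^ (a + 3) - S Y n ω ^ (a + 3) - (a + 3) * (S Y n ω ^ (a + 2) * Y n ω)) - c2 * (S Y n ω ^ (a + 1) * Y n ω ^ 2) := by
        funext ω
        rw [S_succ, hc2]
        push_cast
        ring
      rw [e2, M.sub, M.sub, M.sub, M.mul, M.mul]
    rw [e1]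
    refine (M.bd _ (fun ω => (C2 * (2 ^ a * (1 + r ^ a))) * ((1 + |S Y m1 ω| ^ a) * |Y n ω|)) fun ω => ?_).trans ?_
    · have h1 := t2 (S Y n ω) (Y n ω) ((hYb ω).trans (by linarith))
      refine h1.trans ?_
      have h2 : |Y n ω| ^ 3 ≤ |Y n ω| := by
        have h3 := hYb ω
        have h4 := abs_nonneg (Y n ω)
        calc |Y n ω| ^ 3 = |Y n ω| ^ 2 * |Y n ω| := by ring
          _ ≤ 1 * |Y n ω| := mul_le_mul_of_nonneg_right (pow_le_one₀ h4 h3) h4
          _ = _ := one_mul _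
      have h3 : 1 + |S Y n ω| ^ a ≤ (2 ^ a * (1 + r ^ a)) * (1 + |S Y m1 ω| ^ a) := by
        have h4 : |S Y n ω| ^ a ≤ 2 ^ a * (|S Y m1 ω| ^ a + r ^ a) := by
          have h5 : |S Y n ω| ≤ 2 * max |S Y m1 ω| (r : ℝ) := by
            rw [hS1 ω]
            have := abs_add_le (S Y m1 ω) (T ω)
            have := hTb ω
            have := le_max_left |S Y m1 ω| (r : ℝ)
            have := le_max_right |S Y m1 ω| (r : ℝ)
            linarith
          calc |S Y n ω| ^ a ≤ (2 * max |S Y m1 ω| (r : ℝ)) ^ a := pow_le_pow_left₀ (abs_nonneg _) h5 a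
            _ = 2 ^ a * max |S Y m1 ω| (r : ℝ) ^ a := mul_pow _ _ _
            _ ≤ 2 ^ a * (|S Y m1 ω| ^ a + r ^ a) := by
                apply mul_le_mul_of_nonneg_left _ (by positivity)
                rcases le_total |S Y m1 ω| (r : ℝ) with h | h
                · rw [max_eq_right h]
                  have : 0 ≤ |S Y m1 ω| ^ a := by positivity
                  linarith
                · rw [max_eq_left h]
                  have : (0 : ℝ) ≤ (r : ℝ) ^ a := by positivity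
                  linarith
        have h6 : (1 : ℝ) ≤ 2 ^ a := one_le_pow₀ (by norm_num)
        have h7 : (0 : ℝ) ≤ (r : ℝ) ^ a := by positivity
        have h8 : 0 ≤ |S Y m1 ω| ^ a := by positivity
        have h9 : 0 ≤ 2 ^ a * ((r : ℝ) ^ a * |S Y m1 ω| ^ a) := by positivity
        have e9 : 2 ^ a * (1 + (r : ℝ) ^ a) * (1 + |S Y m1 ω| ^ a) =
            2 ^ a + 2 ^ a * (|S Y m1 ω| ^ a + r ^ a) + 2 ^ a * ((r : ℝ) ^ a * |S Y m1 ω| ^ a) := by ring
        rw [e9]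
        linarith
      calc C2 * (1 + |S Y n ω| ^ a) * |Y n ω| ^ 3 ≤ C2 * ((2 ^ a * (1 + r ^ a)) * (1 + |S Y m1 ω| ^ a)) * |Y n ω| :=
            mul_le_mul (mul_le_mul_of_nonneg_left h3 hC2) h2 (by positivity) (by positivity)
        _ = _ := by ring
    · rw [M.mul]
      exact mul_le_mul_of_nonneg_left (hon m1 dS1 hm1n) (by positivity)
  -- all together
  have ha3 : (0 : ℝ) ≤ (a : ℝ) + 3 := by positivity
  rw [← hc2]
  have e : M.E (fun ω => S Y (n + 1) ω ^ (a + 3)) - M.E (fun ω => S Y n ω ^ (a + 3)) -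
      c2 * (M.V Y (n + 1) - M.V Y n) * M.E (fun ω => S Y n ω ^ (a + 1)) =
      (M.E (fun ω => S Y (n + 1) ω ^ (a + 3)) - M.E (fun ω => S Y n ω ^ (a + 3)) - (a + 3) * M.E (fun ω => S Y n ω ^ (a + 2) * Y n ω) -
        c2 * M.E (fun ω => S Y n ω ^ (a + 1) * Y n ω ^ 2)) +
      ((a + 3) * (M.E (fun ω => S Y n ω ^ (a + 2) * Y n ω) - (a + 2) * (M.E (fun ω => S Y n ω ^ (a + 1)) * M.E (fun ω => T ω * Y n ω))) +
      c2 * (M.E (fun ω => S Y n ω ^ (a + 1) * Y n ω ^ 2) - M.E (fun ω => S Y n ω ^ (a + 1)) * M.E (fun ω => Y n ω ^ 2))) := by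
    rw [hv]
    have e2 : ((a : ℝ) + 3) * (M.E (fun ω => S Y n ω ^ (a + 2) * Y n ω) - (a + 2) * (M.E (fun ω => S Y n ω ^ (a + 1)) * M.E (fun ω => T ω * Y n ω))) =
      (a + 3) * M.E (fun ω => S Y n ω ^ (a + 2) * Y n ω) - (2 * c2) * (M.E (fun ω => S Y n ω ^ (a + 1)) * M.E (fun ω => T ω * Y n ω)) := by
      rw [← hca]
      ring
    rw [e2]
    ring
  rw [e]
  refine (abs_add_le _ _).trans ?_
  have h1 := abs_add_le ((a + 3) * (M.E (fun ω => S Y n ω ^ (a + 2) * Y n ω) - (a + 2) * (M.E (fun ω => S Y n ω ^ (a + 1)) * M.E (fun ω => T ω * Y n ω))))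
    (c2 * (M.E (fun ω => S Y n ω ^ (a + 1) * Y n ω ^ 2) - M.E (fun ω => S Y n ω ^ (a + 1)) * M.E (fun ω => Y n ω ^ 2)))
  rw [abs_mul, abs_mul, abs_of_nonneg ha3, abs_of_nonneg hc20] at h1
  have h2 := mul_le_mul_of_nonneg_left hA ha3
  have h3 := mul_le_mul_of_nonneg_left hB2 hc20
  calc _ ≤ C2 * (2 ^ a * (1 + r ^ a)) * ((1 + B) * w) +
        ((a + 3) * ((C1 * r ^ 2 + (a + 2) * (C0 * r * r + r * (C0 * (2 * r)))) * ((1 + B) * w)) + c2 * ((C0 * r + C0 * (2 * r)) * ((1 + B) * w))) := by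
        linarith
    _ = C * (1 + B) * w := by rw [hC]; ring

lemma V_nonneg (M : Sys Ω) (Y : ℕ → Ω → ℝ) (n : ℕ) : 0 ≤ M.V Y n := M.nonneg _ fun _ => sq_nonneg _

lemma Hyp.sum_wt {M : Sys Ω} {Y : ℕ → Ω → ℝ} {r K : ℕ} {σ : ℝ} (h : M.Hyp Y r K σ) (n : ℕ) (hn : n ≤ K) :
    ∑ k ∈ range n, M.wt Y k ≤ σ ^ 2 := by
  refine le_trans ?_ h.w
  exact sum_le_sum_of_subset_of_nonneg (range_subset_range.2 hn) fun k _ _ => h.wt_nonneg k

/-- the growth of the variance -/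
lemma V_le (r : ℕ) {M : Sys Ω} {Y : ℕ → Ω → ℝ} {K : ℕ} {σ : ℝ} (h : M.Hyp Y r K σ) (n : ℕ) (hn : n ≤ K) :
    M.V Y n ≤ (1 + 2 * r) * σ ^ 2 := by
  obtain ⟨C, _, hs⟩ := step (Ω := Ω) r 0
  have h1 : ∀ m ≤ n, M.V Y m ≤ (1 + 2 * r) * ∑ k ∈ range m, M.wt Y k := by
    intro m hm
    induction m with
    | zero =>
        unfold V
        have e : (fun ω => S Y 0 ω ^ 2) = fun _ => (0 : ℝ) := by funext ω; simp [S]
        rw [e, M.const, sum_range_zero, mul_zero]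
    | succ m ih =>
        have h2 := ih (by omega)
        have h3 := (hs M Y K σ h 1 zero_le_one m (by omega) (fun m' _ => by simp [M.one])).1
        have h4 := (_root_.abs_le.1 h3).2
        rw [sum_range_succ, mul_add]
        linarith
  refine (h1 n le_rfl).trans ?_
  exact mul_le_mul_of_nonneg_left (h.sum_wt n hn) (by positivity)

/-- the moments are those of the normal law up to a factor `1 + O(1 / σ)` -/
theorem moments (r j : ℕ) : ∃ C : ℝ, 0 ≤ C ∧ ∀ (M : Sys Ω) (Y : ℕ → Ω → ℝ) (K : ℕ) (σ : ℝ), M.Hyp Y r K σ →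
    ∀ n, n ≤ K → |M.E (fun ω => S Y n ω ^ j) - G j (M.V Y n)| * σ ≤ C * σ ^ j := by
  induction j using Nat.strong_induction_on with
  | _ j ih =>
  -- absolute moments
  have habs : ∀ a, a + 2 ≤ j → ∃ B : ℝ, 0 ≤ B ∧ ∀ (M : Sys Ω) (Y : ℕ → Ω → ℝ) (K : ℕ) (σ : ℝ), M.Hyp Y r K σ →
      ∀ n, n ≤ K → M.E (fun ω => |S Y n ω| ^ a) ≤ B * σ ^ a := by
    have heven : ∀ a, a < j → Even a → ∃ B : ℝ, 0 ≤ B ∧ ∀ (M : Sys Ω) (Y : ℕ → Ω → ℝ) (K : ℕ) (σ : ℝ), M.Hyp Y r K σ →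
        ∀ n, n ≤ K → M.E (fun ω => |S Y n ω| ^ a) ≤ B * σ ^ a := by
      intro a haj hev
      obtain ⟨C, hC, hm⟩ := ih a haj
      refine ⟨(Nat.doubleFactorial (a - 1) : ℝ) * (1 + 2 * r) ^ a + C, by positivity, fun M Y K σ h n hn => ?_⟩
      have h1 := hm M Y K σ h n hn
      have hσ := h.s1
      have e : (fun ω => |S Y n ω| ^ a) = fun ω => S Y n ω ^ a := by
        funext ω
        exact hev.pow_abs _
      rw [e]
      have h2 : |M.E (fun ω => S Y n ω ^ a) - G a (M.V Y n)| ≤ C * σ ^ a :=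
        (le_mul_of_one_le_right (abs_nonneg _) hσ).trans h1
      have h3 := (_root_.abs_le.1 h2).2
      have h4 := G_bound a (1 + 2 * r) σ (by have : (0 : ℝ) ≤ r := Nat.cast_nonneg _; linarith) hσ (M.V Y n) (V_nonneg M Y n) (V_le r h n hn)
      have h5 := le_abs_self (G a (M.V Y n))
      rw [add_mul]
      linarith
    intro a ha
    rcases Nat.even_or_odd a with hev | hod
    · exact heven a (by omega) hev
    · obtain ⟨c, hc⟩ := hod
      obtain ⟨B1, hB1, h1⟩ := heven (a + 1) (by omega) ⟨c + 1, by omega⟩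
      obtain ⟨B0, hB0, h0⟩ := heven (a - 1) (by omega) ⟨c, by omega⟩
      refine ⟨(B1 + B0) / 2, by positivity, fun M Y K σ h n hn => ?_⟩
      have hσ := h.s1
      have hσ0 : 0 < σ := by linarith
      have h2 := h1 M Y K σ h n hn
      have h3 := h0 M Y K σ h n hn
      have h4 : M.E (fun ω => |S Y n ω| ^ a) ≤ M.E (fun ω => (1 / (2 * σ)) * |S Y n ω| ^ (a + 1) + (σ / 2) * |S Y n ω| ^ (a - 1)) := by
        apply M.mono
        intro ω
        obtain ⟨a', ha'⟩ : ∃ a', a = a' + 1 := ⟨a - 1, by omega⟩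
        subst ha'
        have e1 : a' + 1 - 1 = a' := by omega
        rw [e1]
        have h5 : 0 ≤ |S Y n ω| ^ a' * (|S Y n ω| - σ) ^ 2 := by positivity
        have e2 : (1 / (2 * σ)) * |S Y n ω| ^ (a' + 1 + 1) + (σ / 2) * |S Y n ω| ^ a' - |S Y n ω| ^ (a' + 1) =
            (1 / (2 * σ)) * (|S Y n ω| ^ a' * (|S Y n ω| - σ) ^ 2) := by
          field_simp
          ring
        have h6 : 0 ≤ (1 / (2 * σ)) * (|S Y n ω| ^ a' * (|S Y n ω| - σ) ^ 2) := by positivity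
        linarith
      refine h4.trans ?_
      rw [M.add, M.mul, M.mul]
      obtain ⟨a', ha'⟩ : ∃ a', a = a' + 1 := ⟨a - 1, by omega⟩
      subst ha'
      have e1 : a' + 1 - 1 = a' := by omega
      rw [e1] at h3 ⊢
      have h5 : (1 / (2 * σ)) * M.E (fun ω => |S Y n ω| ^ (a' + 1 + 1)) ≤ (1 / (2 * σ)) * (B1 * σ ^ (a' + 1 + 1)) :=
        mul_le_mul_of_nonneg_left h2 (by positivity)
      have h6 : (σ / 2) * M.E (fun ω => |S Y n ω| ^ a') ≤ (σ / 2) * (B0 * σ ^ a') := mul_le_mul_of_nonneg_left h3 (by positivity)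
      calc _ ≤ (1 / (2 * σ)) * (B1 * σ ^ (a' + 1 + 1)) + (σ / 2) * (B0 * σ ^ a') := add_le_add h5 h6
        _ = _ := by
            field_simp
            ring
  -- the small orders
  rcases Nat.lt_or_ge j 3 with hj | hj
  · refine ⟨0, le_rfl, fun M Y K σ h n hn => ?_⟩
    rw [zero_mul]
    have e : M.E (fun ω => S Y n ω ^ j) - G j (M.V Y n) = 0 := by
      interval_cases j
      · rw [G_zero]
        simp [M.one]
      · rw [G_one, sub_zero]
        have e1 : (fun ω => S Y n ω ^ 1) = fun ω => ∑ k ∈ range n, Y k ω := by funext ω; simp [S]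
        rw [e1, M.sum]
        apply sum_eq_zero
        intro k hk
        rw [mem_range] at hk
        exact h.zero k (by omega)
      · rw [G_two]
        exact sub_self _
    rw [e, abs_zero, zero_mul]
  obtain ⟨a, rfl⟩ : ∃ a, j = a + 3 := ⟨j - 3, by omega⟩
  obtain ⟨B, hB, hBm⟩ := habs a (by omega)
  obtain ⟨C1, hC1, hm1⟩ := ih (a + 1) (by omega)
  obtain ⟨Cs, hCs, hs⟩ := step (Ω := Ω) r a
  have hA : (1 : ℝ) ≤ 1 + 2 * r := by
    have : (0 : ℝ) ≤ r := Nat.cast_nonneg _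
    linarith
  obtain ⟨Cg, hCg, hg⟩ := G_step a (1 + 2 * r) hA
  obtain ⟨C, hC⟩ : ∃ C : ℝ, C = Cs * (1 + B) + ((a + 3).choose 2 : ℕ) * ((1 + 2 * r) * C1) + Cg := ⟨_, rfl⟩
  have hC0 : 0 ≤ C := by rw [hC]; positivity
  refine ⟨C, hC0, fun M Y K σ h n hn => ?_⟩
  have hσ := h.s1
  have hσ0 : 0 < σ := by linarith
  have key : ∀ m ≤ n, |M.E (fun ω => S Y m ω ^ (a + 3)) - G (a + 3) (M.V Y m)| ≤ C * σ ^ a * ∑ k ∈ range m, M.wt Y k := by
    intro m hm
    induction m with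
    | zero =>
        have e : (fun ω => S Y 0 ω ^ (a + 3)) = fun _ => (0 : ℝ) := by funext ω; simp [S]
        have e2 : M.V Y 0 = 0 := by
          unfold V
          have e : (fun ω => S Y 0 ω ^ 2) = fun _ => (0 : ℝ) := by funext ω; simp [S]
          rw [e, M.const]
        rw [e, e2, M.const, G_at_zero, sub_zero, abs_zero, sum_range_zero, mul_zero]
    | succ m ihm =>
        have h1 := ihm (by omega)
        have hmK : m < K := by omega
        have hw0 := h.wt_nonneg m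
        have hw1 := h.wt_le_one m
        obtain ⟨w, hw⟩ : ∃ w, w = M.wt Y m := ⟨_, rfl⟩
        obtain ⟨hv, h2⟩ := hs M Y K σ h (B * σ ^ a) (by positivity) m hmK (fun m' hm' => hBm M Y K σ h m' (by omega))
        rw [sum_range_succ]
        rw [← hw] at hw0 hw1 hv h2 ⊢
        obtain ⟨v, hvd⟩ : ∃ v, v = M.V Y (m + 1) - M.V Y m := ⟨_, rfl⟩
        rw [← hvd] at hv h2
        have hV1 : M.V Y (m + 1) = M.V Y m + v := by rw [hvd]; ring
        have h3 := hg σ hσ (M.V Y m) v w (V_nonneg M Y m) (V_le r h m (by omega)) hw0 hw1 hv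
        have h4 := hm1 M Y K σ h m (by omega)
        have h5 : |M.E (fun ω => S Y m ω ^ (a + 1)) - G (a + 1) (M.V Y m)| ≤ C1 * σ ^ a := by
          have e : C1 * σ ^ (a + 1) = C1 * σ ^ a * σ := by ring
          rw [e] at h4
          exact le_of_mul_le_mul_right h4 hσ0
        have hσa : 1 ≤ σ ^ a := one_le_pow₀ hσ
        have h6 : Cs * (1 + B * σ ^ a) * w ≤ Cs * (1 + B) * σ ^ a * w := by
          apply mul_le_mul_of_nonneg_right _ hw0
          rw [mul_assoc]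
          apply mul_le_mul_of_nonneg_left _ hCs
          nlinarith
        have h7 : |(((a + 3).choose 2 : ℕ) : ℝ) * v * (M.E (fun ω => S Y m ω ^ (a + 1)) - G (a + 1) (M.V Y m))| ≤
            ((a + 3).choose 2 : ℕ) * ((1 + 2 * r) * C1) * σ ^ a * w := by
          rw [abs_mul, abs_mul, Nat.abs_cast]
          calc (((a + 3).choose 2 : ℕ) : ℝ) * |v| * |M.E (fun ω => S Y m ω ^ (a + 1)) - G (a + 1) (M.V Y m)| ≤
              (((a + 3).choose 2 : ℕ) * ((1 + 2 * r) * w)) * (C1 * σ ^ a) :=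
                mul_le_mul (mul_le_mul_of_nonneg_left hv (Nat.cast_nonneg _)) h5 (abs_nonneg _) (by positivity)
            _ = _ := by ring
        rw [hV1]
        have e : M.E (fun ω => S Y (m + 1) ω ^ (a + 3)) - G (a + 3) (M.V Y m + v) =
            (M.E (fun ω => S Y m ω ^ (a + 3)) - G (a + 3) (M.V Y m)) +
            ((M.E (fun ω => S Y (m + 1) ω ^ (a + 3)) - M.E (fun ω => S Y m ω ^ (a + 3)) -
              ((a + 3).choose 2 : ℕ) * v * M.E (fun ω => S Y m ω ^ (a + 1))) +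
            ((((a + 3).choose 2 : ℕ) : ℝ) * v * (M.E (fun ω => S Y m ω ^ (a + 1)) - G (a + 1) (M.V Y m)) +
            -(G (a + 3) (M.V Y m + v) - G (a + 3) (M.V Y m) - ((a + 3).choose 2 : ℕ) * v * G (a + 1) (M.V Y m)))) := by ring
        rw [e]
        refine (abs_add_le _ _).trans ?_
        have h8 := abs_add_le (M.E (fun ω => S Y (m + 1) ω ^ (a + 3)) - M.E (fun ω => S Y m ω ^ (a + 3)) -
              ((a + 3).choose 2 : ℕ) * v * M.E (fun ω => S Y m ω ^ (a + 1)))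
            ((((a + 3).choose 2 : ℕ) : ℝ) * v * (M.E (fun ω => S Y m ω ^ (a + 1)) - G (a + 1) (M.V Y m)) +
            -(G (a + 3) (M.V Y m + v) - G (a + 3) (M.V Y m) - ((a + 3).choose 2 : ℕ) * v * G (a + 1) (M.V Y m)))
        have h9 := abs_add_le ((((a + 3).choose 2 : ℕ) : ℝ) * v * (M.E (fun ω => S Y m ω ^ (a + 1)) - G (a + 1) (M.V Y m)))
            (-(G (a + 3) (M.V Y m + v) - G (a + 3) (M.V Y m) - ((a + 3).choose 2 : ℕ) * v * G (a + 1) (M.V Y m)))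
        rw [abs_neg] at h9
        have h10 : C * σ ^ a * (∑ k ∈ range m, M.wt Y k + w) = C * σ ^ a * ∑ k ∈ range m, M.wt Y k +
            (Cs * (1 + B) * σ ^ a * w + ((a + 3).choose 2 : ℕ) * ((1 + 2 * r) * C1) * σ ^ a * w + Cg * σ ^ a * w) := by
          rw [hC]
          ring
        rw [h10]
        linarith
  have h1 := key n le_rfl
  have h2 := h.sum_wt n hn
  calc |M.E (fun ω => S Y n ω ^ (a + 3)) - G (a + 3) (M.V Y n)| * σ ≤ (C * σ ^ a * σ ^ 2) * σ := by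
        apply mul_le_mul_of_nonneg_right _ hσ0.le
        exact h1.trans (mul_le_mul_of_nonneg_left h2 (by positivity))
    _ = C * σ ^ (a + 3) := by ring

end Sys

end Pool.Agent.K4H4.CL
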