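import Pool.Agent.K4H4.CL.Fam

set_option autoImplicit false

/-! The mean and the variance of sums of products over `s` consecutive primes. -/

namespace Pool.Agent.K4H4.CL
open Finset MeasureTheory ProbabilityTheory
open Pool.Agent.TH894.NE (box mem_box card_box Per mean two_mod mean_mono mean_const mean_add mean_mul)

namespace Sys
variable {Ω : Type}

lemma abs_E_le_one (M : Sys Ω) (f : Ω → ℝ) (h : ∀ ω, |f ω| ≤ 1) : |M.E f| ≤ 1 := by
  have := M.bd f (fun _ => 1) h
  rwa [M.one] at this

/-- the growth of the variance -/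
lemma var_growth (M : Sys Ω) (Y : ℕ → Ω → ℝ) (r K : ℕ) (σ : ℝ) (h : M.Hyp Y r K σ) (β : ℝ) (c : ℕ → ℝ) (hc : ∀ n, 0 ≤ c n)
    (h1 : ∀ n, n < K → |M.E (fun ω => Y n ω ^ 2) - β| ≤ c n)
    (h2 : ∀ k n, k < n → n < K → n < k + r → |M.E (fun ω => Y k ω * Y n ω)| ≤ c n) (n : ℕ) (hn : n ≤ K) :
    |M.V Y n - n * β| ≤ (1 + 2 * r) * ∑ k ∈ range n, c k := by
  induction n with
  | zero =>
      unfold V
      have e : (fun ω => S Y 0 ω ^ 2) = fun _ => (0 : ℝ) := by funext ω; simp [S]
      rw [e, M.const]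
      simp
  | succ n ih =>
      have ih' := ih (by omega)
      have e : M.V Y (n + 1) = M.V Y n + (M.E (fun ω => Y n ω ^ 2) + 2 * ∑ k ∈ range n, M.E (fun ω => Y k ω * Y n ω)) := by
        unfold V
        have e1 : (fun ω => S Y (n + 1) ω ^ 2) = fun ω => S Y n ω ^ 2 + (Y n ω ^ 2 + 2 * ∑ k ∈ range n, Y k ω * Y n ω) := by
          funext ω
          rw [S_succ, ← sum_mul]
          unfold S
          ring
        rw [e1, M.add (fun ω => S Y n ω ^ 2), M.add (fun ω => Y n ω ^ 2), M.mul, M.sum]
      have h3 : |∑ k ∈ range n, M.E (fun ω => Y k ω * Y n ω)| ≤ r * c n := by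
        refine (abs_sum_le_sum_abs _ _).trans ?_
        have h4 : ∀ k ∈ range n, |M.E (fun ω => Y k ω * Y n ω)| ≤ if n < k + r then c n else 0 := by
          intro k hk
          rw [mem_range] at hk
          split_ifs with h5
          · exact h2 k n hk (by omega) h5
          · rw [M.ind (Nat.zero_le _) (by omega : n ≤ n + r) (by have := h.L; omega)
              (M.dmono (Nat.zero_le _) (by omega) (h.dep k)) (h.dep n), h.zero n (by omega), mul_zero, abs_zero]
        refine (sum_le_sum h4).trans ?_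
        rw [← sum_filter, sum_const, nsmul_eq_mul]
        apply mul_le_mul_of_nonneg_right _ (hc n)
        have h5 : (range n).filter (fun k => n < k + r) ⊆ Ico (n + 1 - r) n := by
          intro k hk
          rw [mem_filter, mem_range] at hk
          rw [mem_Ico]
          omega
        have h6 := card_le_card h5
        rw [Nat.card_Ico] at h6
        exact_mod_cast h6.trans (by omega)
      have h4 := h1 n (by omega)
      rw [e, sum_range_succ, mul_add]
      have e2 : M.V Y n + (M.E (fun ω => Y n ω ^ 2) + 2 * ∑ k ∈ range n, M.E (fun ω => Y k ω * Y n ω)) - ((n + 1 : ℕ) : ℝ) * β =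
          (M.V Y n - n * β) + ((M.E (fun ω => Y n ω ^ 2) - β) + 2 * ∑ k ∈ range n, M.E (fun ω => Y k ω * Y n ω)) := by
        push_cast; ring
      rw [e2]
      refine (abs_add_le _ _).trans ?_
      have h5 := abs_add_le (M.E (fun ω => Y n ω ^ 2) - β) (2 * ∑ k ∈ range n, M.E (fun ω => Y k ω * Y n ω))
      rw [abs_mul, abs_of_pos (by norm_num : (0 : ℝ) < 2)] at h5
      linarith

end Sys

variable {d : ℕ}

lemma harm (K : ℕ) : ∑ k ∈ range K, (1 : ℝ) / (k + 1) ≤ 1 + Real.log (K + 1) := by
  have h1 := harmonic_le_one_add_log K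
  have h2 : ((harmonic K : ℚ) : ℝ) = ∑ k ∈ range K, (1 : ℝ) / (k + 1) := by
    unfold harmonic
    push_cast
    exact sum_congr rfl fun k _ => by rw [one_div]
  rw [h2] at h1
  refine h1.trans ?_
  have h3 : Real.log K ≤ Real.log (K + 1) := by
    rcases Nat.eq_zero_or_pos K with h | h
    · rw [h]; simp
    · exact Real.log_le_log (by exact_mod_cast h) (by linarith)
  linarith

lemma prod_diff {ι : Type} (I : Finset ι) (x : ι → ℝ) (β c : ℝ) (hβ : |β| ≤ 1) (hx : ∀ i ∈ I, |x i| ≤ 1)
    (h : ∀ i ∈ I, |x i - β| ≤ c) : |∏ i ∈ I, x i - β ^ I.card| ≤ I.card * c := by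
  classical
  induction I using Finset.induction_on with
  | empty => simp
  | insert a I ha ih =>
      have ih' := ih (fun i hi => hx i (mem_insert_of_mem hi)) (fun i hi => h i (mem_insert_of_mem hi))
      rw [prod_insert ha, card_insert_of_notMem ha]
      have e : x a * ∏ i ∈ I, x i - β ^ (I.card + 1) = x a * (∏ i ∈ I, x i - β ^ I.card) + (x a - β) * β ^ I.card := by ring
      rw [e]
      refine (abs_add_le _ _).trans ?_
      rw [abs_mul, abs_mul, abs_pow]
      have h1 := h a (mem_insert_self a I)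
      have h2 := hx a (mem_insert_self a I)
      have h3 : |β| ^ I.card ≤ 1 := pow_le_one₀ (abs_nonneg _) hβ
      have hc : 0 ≤ c := (abs_nonneg _).trans h1
      push_cast
      calc |x a| * |∏ i ∈ I, x i - β ^ I.card| + |x a - β| * |β| ^ I.card ≤ 1 * (I.card * c) + c * 1 :=
            add_le_add (mul_le_mul h2 ih' (abs_nonneg _) (by norm_num)) (mul_le_mul h1 h3 (by positivity) hc)
        _ = _ := by ring

/-- the products over the windows -/
def win (h : ℕ → (Fin d → ℤ) → ℝ) (s k : ℕ) (t : Fin d → ℤ) : ℝ := ∏ i ∈ range s, h (k + i) t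

lemma perZ_prod {q : ℕ} {ι : Type} (I : Finset ι) (f : ι → (Fin d → ℤ) → ℝ) (h : ∀ i ∈ I, PerZ q (f i)) :
    PerZ q (fun t => ∏ i ∈ I, f i t) := fun t t' ht => prod_congr rfl fun i hi => h i hi t t' ht

lemma pr_dvd_PI {l : ℕ} {I : Finset ℕ} (h : l ∈ I) : pr l ∣ PI I := dvd_prod_of_mem _ h

lemma perZ_win {h : ℕ → (Fin d → ℤ) → ℝ} (hp : ∀ l, PerZ (pr l) (h l)) (s k : ℕ) : PerZ (PI (Ico k (k + s))) (win h s k) := by
  apply perZ_prod
  intro i hi
  rw [mem_range] at hi
  exact (hp (k + i)).of_dvd (pr_dvd_PI (by rw [mem_Ico]; omega))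

/-- **Mean and variance.** -/
theorem mean_var (s : ℕ) (hs : 1 ≤ s) (h : ℕ → (Fin d → ℤ) → ℝ) (hp : ∀ l, PerZ (pr l) (h l)) (hb : ∀ l t, |h l t| ≤ 1)
    (C β : ℝ) (hC : 0 ≤ C) (hβ : |β| ≤ 1) (ha : ∀ l : ℕ, |meanZ (pr l) (h l)| ≤ C / (l + 1))
    (hv : ∀ l : ℕ, |meanZ (pr l) (fun t => h l t ^ 2) - β| ≤ C / (l + 1)) (K : ℕ) (hK1 : 1 ≤ K) :
    |mu (win h s) s K| ≤ C * (1 + Real.log (K + 1)) ∧
    |va (win h s) s K - β ^ s * K| ≤ (1 + 2 * s) * (4 * s * C) * (1 + Real.log (K + 1)) := by
  obtain ⟨M, hM⟩ : ∃ M, M = sys d (K + s) := ⟨_, rfl⟩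
  obtain ⟨H, hH⟩ : ∃ H : ℕ → (Fin d → ℕ) → ℝ, H = fun l => sh 0 (h l) := ⟨_, rfl⟩
  obtain ⟨W, hW⟩ : ∃ W : ℕ → (Fin d → ℕ) → ℝ, W = fun k => sh 0 (win h s k) := ⟨_, rfl⟩
  have hHb : ∀ l n, |H l n| ≤ 1 := fun l n => by rw [hH]; exact hb l _
  have hWeq : ∀ k n, W k n = ∏ i ∈ range s, H (k + i) n := by
    intro k n
    rw [hW, hH]
    rfl
  have hprodb : ∀ (I : Finset ℕ) (n : Fin d → ℕ), |∏ i ∈ I, H i n| ≤ 1 := by
    intro I n
    rw [abs_prod]
    exact prod_le_one (fun _ _ => abs_nonneg _) fun i _ => hHb i n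
  have hWb : ∀ k n, |W k n| ≤ 1 := by
    intro k n
    rw [hWeq, abs_prod]
    exact prod_le_one (fun _ _ => abs_nonneg _) fun i _ => hHb (k + i) n
  have dH : ∀ l, M.Dep l (l + 1) (H l) := by
    intro l
    rw [hM, hH]
    show Per (PI (Ico l (l + 1))) (sh 0 (h l))
    refine (per_sh (hp l) 0).of_dvd (pr_dvd_PI ?_)
    rw [mem_Ico]
    omega
  have hLM : M.L = K + s := by rw [hM]; rfl
  have hMq : ∀ {I : Finset ℕ} (f : (Fin d → ℤ) → ℝ), I ⊆ range (K + s) → PerZ (PI I) f → M.E (sh 0 f) = meanZ (PI I) f := by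
    intro I f hI hf
    rw [← mean_sh (PI_pos I) hf 0, hM]
    exact mean_eq hI _ (per_sh hf 0)
  have hPI1 : ∀ l, PI {l} = pr l := fun l => by unfold PI; rw [prod_singleton]
  have hEH : ∀ l, l < K + s → M.E (H l) = meanZ (pr l) (h l) := by
    intro l hl
    rw [hH]
    have := hMq (I := {l}) (h l) (by rw [singleton_subset_iff, mem_range]; exact hl) (by rw [hPI1]; exact hp l)
    rw [hPI1] at this
    exact this
  have hEH2 : ∀ l, l < K + s → M.E (fun n => H l n ^ 2) = meanZ (pr l) (fun t => h l t ^ 2) := by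
    intro l hl
    have hp2 : PerZ (pr l) (fun t => h l t ^ 2) := fun t t' ht => by simp only [hp l t t' ht]
    have := hMq (I := {l}) (fun t => h l t ^ 2) (by rw [singleton_subset_iff, mem_range]; exact hl) (by rw [hPI1]; exact hp2)
    rw [hPI1] at this
    rw [← this, hH]
    rfl
  -- a product starting with `H k`
  have hfirst : ∀ k (R : (Fin d → ℕ) → ℝ) (b : ℕ), k < K → k + 1 ≤ b → b ≤ K + s → M.Dep (k + 1) b R → (∀ n, |R n| ≤ 1) →
      |M.E (fun n => H k n * R n)| ≤ C / (k + 1) := by
    intro k R b hk hkb hbK hR hRb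
    rw [M.ind (by omega : k ≤ k + 1) hkb (by omega) (dH k) hR, abs_mul, hEH k (by omega)]
    have h1 := M.abs_E_le_one R hRb
    calc _ ≤ C / (k + 1) * 1 := mul_le_mul (ha k) h1 (abs_nonneg _) (by positivity)
      _ = _ := mul_one _
  have hWs : ∀ k n, W k n = H k n * ∏ i ∈ Ico 1 s, H (k + i) n := by
    intro k n
    rw [hWeq, prod_range_eq_mul_Ico _ (by omega : 0 < s), Nat.add_zero]
  obtain ⟨R, hR⟩ : ∃ R : ℕ → (Fin d → ℕ) → ℝ, R = fun k n => ∏ i ∈ Ico 1 s, H (k + i) n := ⟨_, rfl⟩
  have hWR : ∀ k, W k = fun n => H k n * R k n := by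
    intro k
    funext n
    rw [hWs, hR]
  have hRb : ∀ k n, |R k n| ≤ 1 := by
    intro k n
    rw [hR]
    show |∏ i ∈ Ico 1 s, H (k + i) n| ≤ 1
    rw [abs_prod]
    exact prod_le_one (fun _ _ => abs_nonneg _) fun i _ => hHb (k + i) n
  have dprod : ∀ (I : Finset ℕ) (k a b : ℕ), (∀ i ∈ I, a ≤ k + i ∧ k + i + 1 ≤ b) → M.Dep a b (fun n => ∏ i ∈ I, H (k + i) n) := by
    intro I k a b hI
    induction I using Finset.induction_on with
    | empty => simpa using M.dconst a b 1
    | insert i I hi ih =>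
        have h1 := M.dmul (M.dmono (hI i (mem_insert_self i I)).1 (hI i (mem_insert_self i I)).2 (dH (k + i)))
          (ih fun j hj => hI j (mem_insert_of_mem hj))
        have e : (fun n => ∏ j ∈ insert i I, H (k + j) n) = fun n => H (k + i) n * ∏ j ∈ I, H (k + j) n := by
          funext n
          rw [prod_insert hi]
        rw [e]
        exact h1
  have dR : ∀ k, M.Dep (k + 1) (k + s) (R k) := by
    intro k
    rw [hR]
    apply dprod
    intro i hi
    rw [mem_Ico] at hi
    omega
  have dW : ∀ k, M.Dep k (k + s) (W k) := by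
    intro k
    have e : W k = fun n => ∏ i ∈ range s, H (k + i) n := by funext n; exact hWeq k n
    rw [e]
    apply dprod
    intro i hi
    rw [mem_range] at hi
    omega
  have hEW : ∀ k, k < K → |M.E (W k)| ≤ C / (k + 1) := by
    intro k hk
    rw [hWR k]
    exact hfirst k (R k) (k + s) hk (by omega) (by omega) (dR k) (hRb k)
  have hEW2 : ∀ k, k < K → |M.E (fun n => W k n ^ 2) - β ^ s| ≤ s * (C / (k + 1)) := by
    intro k hk
    have h1 : ∀ j, j ≤ s → M.E (fun n => ∏ i ∈ range j, H (k + i) n ^ 2) = ∏ i ∈ range j, M.E (fun n => H (k + i) n ^ 2) := by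
      intro j hj
      induction j with
      | zero =>
          simp only [range_zero, prod_empty]
          exact M.one
      | succ j ih =>
          have e : (fun n => ∏ i ∈ range (j + 1), H (k + i) n ^ 2) = fun n => (∏ i ∈ range j, H (k + i) n ^ 2) * H (k + j) n ^ 2 := by
            funext n
            rw [prod_range_succ]
          have hd1 : M.Dep k (k + j) (fun n => ∏ i ∈ range j, H (k + i) n ^ 2) := by
            have e2 : (fun n => ∏ i ∈ range j, H (k + i) n ^ 2) = fun n => (∏ i ∈ range j, H (k + i) n) ^ 2 := by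
              funext n
              rw [prod_pow]
            rw [e2]
            apply M.dpow
            apply dprod
            intro i hi
            rw [mem_range] at hi
            omega
          rw [e, M.ind (by omega : k ≤ k + j) (by omega : k + j ≤ k + j + 1) (by omega) hd1 (M.dpow (dH (k + j)) 2), ih (by omega),
            prod_range_succ]
    have e : (fun n => W k n ^ 2) = fun n => ∏ i ∈ range s, H (k + i) n ^ 2 := by
      funext n
      rw [hWeq, prod_pow]
    rw [e, h1 s le_rfl]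
    have h2 := prod_diff (range s) (fun i => M.E (fun n => H (k + i) n ^ 2)) β (C / (k + 1)) hβ
      (fun i _ => M.abs_E_le_one _ fun n => by
        rw [abs_pow]
        exact pow_le_one₀ (abs_nonneg _) (hHb (k + i) n))
      (fun i hi => by
        rw [mem_range] at hi
        show |M.E (fun n => H (k + i) n ^ 2) - β| ≤ C / (k + 1)
        rw [hEH2 (k + i) (by omega)]
        refine (hv (k + i)).trans ?_
        apply div_le_div_of_nonneg_left hC (by positivity)
        push_cast
        have : (0 : ℝ) ≤ i := Nat.cast_nonneg _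
        linarith)
    rw [card_range] at h2
    exact h2
  have hcov : ∀ k n, k < n → n < K → n < k + s → |M.E (fun x => W k x * W n x)| ≤ C / (k + 1) := by
    intro k n hkn hn hns
    have e : (fun x => W k x * W n x) = fun x => H k x * (R k x * W n x) := by
      funext x
      rw [hWR k]
      ring
    rw [e]
    refine hfirst k (fun x => R k x * W n x) (n + s) (by omega) (by omega) (by omega) ?_ ?_
    · exact M.dmul (M.dmono le_rfl (by omega) (dR k)) (M.dmono (by omega) le_rfl (dW n))
    · intro x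
      rw [abs_mul]
      exact mul_le_one₀ (hRb k x) (abs_nonneg _) (hWb n x)
  -- the centred summands
  have hmk : ∀ k, k < K → mean d (PI (Ico k (k + s))) (sh 0 (win h s k)) = M.E (W k) := by
    intro k hk
    rw [hM, hW]
    symm
    refine mean_eq ?_ _ (per_sh (perZ_win hp s k) 0)
    intro x hx
    rw [mem_Ico] at hx
    rw [mem_range]
    omega
  have hg := fun k => perZ_win hp s k
  constructor
  · have h1 := mean_cen (K := K) hg (0 : Fin d → ℤ)
    rw [← h1]
    refine (abs_sum_le_sum_abs _ _).trans ?_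
    calc ∑ k ∈ range K, |mean d (PI (Ico k (k + s))) (sh 0 (win h s k))| ≤ ∑ k ∈ range K, C * ((1 : ℝ) / (k + 1)) := by
          apply sum_le_sum
          intro k hk
          rw [mem_range] at hk
          rw [hmk k hk, mul_one_div]
          exact hEW k hk
      _ = C * ∑ k ∈ range K, (1 : ℝ) / (k + 1) := by rw [mul_sum]
      _ ≤ C * (1 + Real.log (K + 1)) := mul_le_mul_of_nonneg_left (harm K) hC
  · obtain ⟨Y, hY⟩ : ∃ Y, Y = cen 2 (win h s) (0 : Fin d → ℤ) s := ⟨_, rfl⟩
    have hYk : ∀ k, k < K → Y k = fun n => (1 / 2) * (W k n - M.E (W k)) := by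
      intro k hk
      funext n
      rw [hY]
      unfold cen
      rw [hmk k hk, hW]
      ring
    have hYb : ∀ k n, |Y k n| ≤ 1 := by
      intro k n
      rw [hY]
      unfold cen
      rw [abs_div, abs_of_pos (by norm_num : (0 : ℝ) < 2), div_le_one (by norm_num)]
      have h1 : |sh 0 (win h s k) n| ≤ 1 := by
        have := hWb k n
        rw [hW] at this
        exact this
      have h2 : |mean d (PI (Ico k (k + s))) (sh 0 (win h s k))| ≤ 1 := by
        rw [abs_le]
        have h3 : ∀ n, |sh 0 (win h s k) n| ≤ 1 := by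
          intro n
          have := hWb k n
          rw [hW] at this
          exact this
        constructor
        · have h1 := mean_mono (d := d) (q := PI (Ico k (k + s))) (F := fun _ => (-1 : ℝ)) (G := sh 0 (win h s k)) (fun n => (abs_le.1 (h3 n)).1)
          rwa [mean_const d _ (PI_pos _) (-1)] at h1
        · have h1 := mean_mono (d := d) (q := PI (Ico k (k + s))) (F := sh 0 (win h s k)) (G := fun _ => (1 : ℝ)) (fun n => (abs_le.1 (h3 n)).2)
          rwa [mean_const d _ (PI_pos _) 1] at h1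
      calc _ ≤ |sh 0 (win h s k) n| + |mean d (PI (Ico k (k + s))) (sh 0 (win h s k))| := abs_sub _ _
        _ ≤ 2 := by linarith
    have hK1' : (1 : ℝ) ≤ K := by exact_mod_cast hK1
    have hhyp : M.Hyp Y s K (Real.sqrt K) := by
      rw [hM, hY]
      rw [hY] at hYb
      refine hyp_cen hs 2 (Real.sqrt K) hg 0 hYb (Real.one_le_sqrt.2 hK1') ?_
      rw [Real.sq_sqrt (by linarith)]
      calc ∑ k ∈ range K, (sys d (K + s)).E (fun n => |cen 2 (win h s) 0 s k n|) ≤ ∑ k ∈ range K, (1 : ℝ) := by
            apply sum_le_sum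
            intro k _
            have := (sys d (K + s)).mono (fun n => |cen 2 (win h s) 0 s k n|) (fun _ => 1) (hYb k)
            rwa [(sys d (K + s)).one] at this
        _ = K := by simp
    have hEWle : ∀ k, |M.E (W k)| ≤ 1 := fun k => M.abs_E_le_one _ (hWb k)
    have hvg := M.var_growth Y s K (Real.sqrt K) hhyp (β ^ s / 4) (fun n => s * C * ((1 : ℝ) / (n + 1))) (fun n => by positivity) ?_ ?_ K le_rfl
    · have h1 : M.V Y K = va (win h s) s K / 2 ^ 2 := by
        rw [hM, hY]
        exact V_cen 2 hg 0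
      rw [h1, ← mul_sum] at hvg
      have h2 := mul_le_mul_of_nonneg_left (harm K) (show (0 : ℝ) ≤ s * C by positivity)
      have e : va (win h s) s K - β ^ s * K = 4 * (va (win h s) s K / 2 ^ 2 - K * (β ^ s / 4)) := by ring
      rw [e, abs_mul, abs_of_pos (by norm_num : (0 : ℝ) < 4)]
      calc 4 * |va (win h s) s K / 2 ^ 2 - K * (β ^ s / 4)| ≤ 4 * ((1 + 2 * s) * (s * C * ∑ k ∈ range K, (1 : ℝ) / (k + 1))) := by linarith
        _ ≤ 4 * ((1 + 2 * s) * (s * C * (1 + Real.log (K + 1)))) := by
            apply mul_le_mul_of_nonneg_left _ (by norm_num)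
            exact mul_le_mul_of_nonneg_left h2 (by positivity)
        _ = _ := by ring
    · intro n hn
      have e : M.E (fun ω => Y n ω ^ 2) = (M.E (fun x => W n x ^ 2) - M.E (W n) ^ 2) / 4 := by
        have e1 : (fun ω => Y n ω ^ 2) = fun ω => (1 / 4) * (W n ω ^ 2 - (2 * M.E (W n) * W n ω - M.E (W n) ^ 2)) := by
          funext ω
          rw [hYk n hn]
          ring
        rw [e1, M.mul, M.sub (fun ω => W n ω ^ 2), M.sub (fun ω => 2 * M.E (W n) * W n ω), M.const]
        have e2 := M.mul (2 * M.E (W n)) (W n)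
        rw [e2]
        ring
      rw [e]
      have h1 := hEW2 n hn
      have h2 := hEW n hn
      have h3 : |M.E (W n) ^ 2| ≤ C / (n + 1) := by
        rw [abs_pow]
        have h4 := hEWle n
        have h5 := abs_nonneg (M.E (W n))
        nlinarith
      have e3 : (M.E (fun x => W n x ^ 2) - M.E (W n) ^ 2) / 4 - β ^ s / 4 = ((M.E (fun x => W n x ^ 2) - β ^ s) - M.E (W n) ^ 2) / 4 := by ring
      rw [e3, abs_div, abs_of_pos (by norm_num : (0 : ℝ) < 4)]
      have h4 := abs_sub (M.E (fun x => W n x ^ 2) - β ^ s) (M.E (W n) ^ 2)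
      have hs1 : (1 : ℝ) ≤ s := by exact_mod_cast hs
      have hc0 : 0 ≤ C / ((n : ℝ) + 1) := by positivity
      have e4 : (s : ℝ) * C * (1 / ((n : ℝ) + 1)) = s * (C / (n + 1)) := by ring
      rw [e4, div_le_iff₀ (by norm_num)]
      nlinarith
    · intro k n hkn hn hns
      have e : M.E (fun ω => Y k ω * Y n ω) = (M.E (fun x => W k x * W n x) - M.E (W k) * M.E (W n)) / 4 := by
        have e1 : (fun ω => Y k ω * Y n ω) = fun ω => (1 / 4) * (W k ω * W n ω - (M.E (W n) * W k ω + (M.E (W k) * W n ω - M.E (W k) * M.E (W n)))) := by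
          funext ω
          rw [hYk n hn, hYk k (by omega)]
          ring
        rw [e1, M.mul, M.sub (fun ω => W k ω * W n ω), M.add (fun ω => M.E (W n) * W k ω), M.sub (fun ω => M.E (W k) * W n ω), M.const]
        have e2 := M.mul (M.E (W n)) (W k)
        have e3 := M.mul (M.E (W k)) (W n)
        rw [e2, e3]
        ring
      rw [e]
      have h1 := hcov k n hkn hn hns
      have h2 := hEW k (by omega)
      have h3 : |M.E (W k) * M.E (W n)| ≤ C / (k + 1) := by
        rw [abs_mul]
        have h4 := hEWle n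
        have h5 := abs_nonneg (M.E (W k))
        nlinarith
      rw [abs_div, abs_of_pos (by norm_num : (0 : ℝ) < 4)]
      have h4 := abs_sub (M.E (fun x => W k x * W n x)) (M.E (W k) * M.E (W n))
      have hs1 : (1 : ℝ) ≤ s := by exact_mod_cast hs
      have h5 : C / ((k : ℝ) + 1) ≤ s * C * (1 / ((n : ℝ) + 1)) := by
        rw [mul_one_div, div_le_div_iff₀ (by positivity) (by positivity)]
        have h6 : (n : ℝ) + 1 ≤ s * (k + 1) := by
          have h7 : n + 1 ≤ s * (k + 1) := by nlinarith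
          exact_mod_cast h7
        nlinarith
      have hc0 : 0 ≤ C / ((k : ℝ) + 1) := by positivity
      rw [div_le_iff₀ (by norm_num)]
      linarith

end Pool.Agent.K4H4.CL
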