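import Pool.Agent.K4H4.CL.Tay

set_option autoImplicit false

/-! Sums of functions depending on `r` consecutive coordinates: the growth of the moments. -/

namespace Pool.Agent.K4H4.CL
open Finset

/-- a mean with independence of functions of disjoint blocks of coordinates -/
structure Sys (Ω : Type) where
  /-- the mean -/
  E : (Ω → ℝ) → ℝ
  add : ∀ f g, E (fun ω => f ω + g ω) = E f + E g
  mul : ∀ (c : ℝ) f, E (fun ω => c * f ω) = c * E f
  one : E (fun _ => 1) = 1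
  mono : ∀ f g, (∀ ω, f ω ≤ g ω) → E f ≤ E g
  /-- the number of the coordinates -/
  L : ℕ
  /-- the function depends on the coordinates `a ≤ k < b` -/
  Dep : ℕ → ℕ → (Ω → ℝ) → Prop
  dconst : ∀ a b c, Dep a b (fun _ => c)
  dadd : ∀ {a b f g}, Dep a b f → Dep a b g → Dep a b (fun ω => f ω + g ω)
  dmul : ∀ {a b f g}, Dep a b f → Dep a b g → Dep a b (fun ω => f ω * g ω)
  dabs : ∀ {a b f}, Dep a b f → Dep a b (fun ω => |f ω|)
  dmono : ∀ {a b a' b' f}, a' ≤ a → b ≤ b' → Dep a b f → Dep a' b' f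
  ind : ∀ {a b c f g}, a ≤ b → b ≤ c → c ≤ L → Dep a b f → Dep b c g → E (fun ω => f ω * g ω) = E f * E g

namespace Sys
variable {Ω : Type} (M : Sys Ω)

lemma const (c : ℝ) : M.E (fun _ => c) = c := by
  have := M.mul c (fun _ => 1)
  rw [M.one, mul_one] at this
  simpa using this

lemma sub (f g : Ω → ℝ) : M.E (fun ω => f ω - g ω) = M.E f - M.E g := by
  have h := M.add f (fun ω => (-1) * g ω)
  rw [M.mul] at h
  have e : (fun ω => f ω - g ω) = fun ω => f ω + (-1) * g ω := by funext ω; ring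
  rw [e, h]
  ring

lemma abs_le (f : Ω → ℝ) : |M.E f| ≤ M.E (fun ω => |f ω|) := by
  rw [_root_.abs_le]
  constructor
  · have h := M.mono (fun ω => (-1) * |f ω|) f (fun ω => by have := neg_abs_le (f ω); linarith)
    rw [M.mul] at h
    linarith
  · exact M.mono _ _ fun ω => le_abs_self _

lemma nonneg (f : Ω → ℝ) (h : ∀ ω, 0 ≤ f ω) : 0 ≤ M.E f := by
  have := M.mono (fun _ => 0) f h
  rwa [M.const] at this

lemma bd (f g : Ω → ℝ) (h : ∀ ω, |f ω| ≤ g ω) : |M.E f| ≤ M.E g :=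
  (M.abs_le f).trans (M.mono _ _ h)

lemma dpow {a b : ℕ} {f : Ω → ℝ} (h : M.Dep a b f) (n : ℕ) : M.Dep a b (fun ω => f ω ^ n) := by
  induction n with
  | zero => simpa using M.dconst a b 1
  | succ n ih =>
      have := M.dmul ih h
      simpa [pow_succ] using this

lemma dsum {a b : ℕ} {ι : Type} (I : Finset ι) (f : ι → Ω → ℝ) (h : ∀ i ∈ I, M.Dep a b (f i)) :
    M.Dep a b (fun ω => ∑ i ∈ I, f i ω) := by
  classical
  induction I using Finset.induction_on with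
  | empty => simpa using M.dconst a b 0
  | insert i I hi ih =>
      have h1 := ih (fun j hj => h j (mem_insert_of_mem hj))
      have h2 := M.dadd (h i (mem_insert_self i I)) h1
      have e : (fun ω => ∑ j ∈ insert i I, f j ω) = fun ω => f i ω + ∑ j ∈ I, f j ω := by
        funext ω
        rw [sum_insert hi]
      rw [e]
      exact h2

lemma sum {ι : Type} (I : Finset ι) (f : ι → Ω → ℝ) : M.E (fun ω => ∑ i ∈ I, f i ω) = ∑ i ∈ I, M.E (f i) := by
  classical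
  induction I using Finset.induction_on with
  | empty => simpa using M.const 0
  | insert i I hi ih =>
      have e : (fun ω => ∑ j ∈ insert i I, f j ω) = fun ω => f i ω + ∑ j ∈ I, f j ω := by
        funext ω
        rw [sum_insert hi]
      rw [e, M.add, ih, sum_insert hi]

/-- the hypotheses on the summands -/
structure Hyp (Y : ℕ → Ω → ℝ) (r K : ℕ) (σ : ℝ) : Prop where
  r1 : 1 ≤ r
  s1 : 1 ≤ σ
  L : K + r ≤ M.L
  dep : ∀ k, M.Dep k (k + r) (Y k)
  bd : ∀ k ω, |Y k ω| ≤ 1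
  zero : ∀ k, k < K → M.E (Y k) = 0
  w : ∑ k ∈ range K, M.E (fun ω => |Y k ω|) ≤ σ ^ 2

/-- the partial sums -/
def S (Y : ℕ → Ω → ℝ) (n : ℕ) (ω : Ω) : ℝ := ∑ k ∈ range n, Y k ω

/-- the mean absolute value -/
noncomputable def wt (Y : ℕ → Ω → ℝ) (n : ℕ) : ℝ := M.E (fun ω => |Y n ω|)

variable {M} {Y : ℕ → Ω → ℝ} {r K : ℕ} {σ : ℝ}

lemma Hyp.wt_nonneg (_ : M.Hyp Y r K σ) (n : ℕ) : 0 ≤ M.wt Y n := M.nonneg _ fun _ => abs_nonneg _

lemma Hyp.wt_le_one (h : M.Hyp Y r K σ) (n : ℕ) : M.wt Y n ≤ 1 := by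
  have := M.mono (fun ω => |Y n ω|) (fun _ => 1) (h.bd n)
  rwa [M.one] at this

lemma Hyp.dep_S (h : M.Hyp Y r K σ) (n b : ℕ) (hb : n + r ≤ b + 1) : M.Dep 0 b (S Y n) := by
  unfold S
  apply M.dsum
  intro k hk
  rw [mem_range] at hk
  exact M.dmono (Nat.zero_le _) (by omega) (h.dep k)

lemma S_succ (n : ℕ) (ω : Ω) : S Y (n + 1) ω = S Y n ω + Y n ω := by
  unfold S
  rw [sum_range_succ]

lemma S_split (m n : ℕ) (hmn : m ≤ n) (ω : Ω) : S Y n ω = S Y m ω + ∑ k ∈ Ico m n, Y k ω := by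
  unfold S
  rw [sum_range_add_sum_Ico _ hmn]

lemma Hyp.T_bd (h : M.Hyp Y r K σ) (m n : ℕ) (B : ℝ) (hB : ((n - m : ℕ) : ℝ) ≤ B) (ω : Ω) : |∑ k ∈ Ico m n, Y k ω| ≤ B := by
  refine (abs_sum_le_sum_abs _ _).trans ?_
  refine (sum_le_sum fun k _ => h.bd k ω).trans ?_
  rw [sum_const, Nat.card_Ico, nsmul_eq_mul, mul_one]
  exact hB

/-- a product of a power of an old partial sum and a new summand -/
lemma Hyp.old_new (h : M.Hyp Y r K σ) (a n m : ℕ) (hn : n < K) (hm : m + r ≤ n + 1) :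
    M.E (fun ω => (1 + |S Y m ω| ^ a) * |Y n ω|) = (1 + M.E (fun ω => |S Y m ω| ^ a)) * M.wt Y n := by
  have h1 : M.Dep 0 n (fun ω => 1 + |S Y m ω| ^ a) :=
    M.dadd (M.dconst 0 n 1) (M.dpow (M.dabs (h.dep_S m n hm)) a)
  have h2 : M.Dep n (n + r) (fun ω => |Y n ω|) := M.dabs (h.dep n)
  rw [M.ind (Nat.zero_le _) (by omega) (by have := h.L; omega) h1 h2, M.add, M.one]
  rfl

end Sys

end Pool.Agent.K4H4.CL
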