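import Mathlib

set_option autoImplicit false

/-! Taylor remainders of powers, and the recurrence for the moments of the normal law. -/

namespace Pool.Agent.K4H4.CL
open Finset

lemma pow_le_one_add {x : ℝ} (hx : 0 ≤ x) (a : ℕ) : x ^ a ≤ 1 + x ^ (a + 1) := by
  rcases le_total x 1 with h | h
  · have := pow_le_one₀ hx h (n := a)
    have h2 : 0 ≤ x ^ (a + 1) := by positivity
    linarith
  · have := pow_le_pow_right₀ h (Nat.le_succ a)
    simp only [Nat.succ_eq_add_one] at this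
    linarith

/-- zeroth order -/
lemma tay0 (R : ℝ) (hR : 1 ≤ R) (a : ℕ) : ∃ C : ℝ, 0 ≤ C ∧ ∀ x y : ℝ, |y| ≤ R →
    |(x + y) ^ (a + 1) - x ^ (a + 1)| ≤ C * (1 + |x| ^ a) * |y| := by
  induction a with
  | zero =>
      refine ⟨1, zero_le_one, fun x y _ => ?_⟩
      have : (x + y) ^ (0 + 1) - x ^ (0 + 1) = y := by ring
      rw [this]
      have := abs_nonneg y
      simp only [pow_zero]
      linarith
  | succ a ih =>
      obtain ⟨C, hC, h⟩ := ih
      refine ⟨1 + C * (R + 2) + C * R, by positivity, fun x y hy => ?_⟩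
      have h1 := h x y hy
      have e : (x + y) ^ (a + 1 + 1) - x ^ (a + 1 + 1) = (x + y) * ((x + y) ^ (a + 1) - x ^ (a + 1)) + y * x ^ (a + 1) := by ring
      rw [e]
      refine (abs_add_le _ _).trans ?_
      rw [abs_mul, abs_mul, abs_pow]
      have hy0 := abs_nonneg y
      have hx0 := abs_nonneg x
      have h2 : |x + y| ≤ |x| + R := (abs_add_le x y).trans (by linarith)
      have h3 := pow_le_one_add hx0 a
      have hp : 0 ≤ |x| ^ a := by positivity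
      have hp1 : 0 ≤ |x| ^ (a + 1) := by positivity
      have h4 : |x + y| * |(x + y) ^ (a + 1) - x ^ (a + 1)| ≤ (|x| + R) * (C * (1 + |x| ^ a) * |y|) :=
        mul_le_mul h2 h1 (abs_nonneg _) (by positivity)
      have h5 : (|x| + R) * (1 + |x| ^ a) ≤ (2 * R + 2) * (1 + |x| ^ (a + 1)) := by
        have e1 : |x| * |x| ^ a = |x| ^ (a + 1) := by ring
        have h6 : |x| ≤ 1 + |x| ^ (a + 1) := by
          rcases le_total |x| 1 with h | h
          · linarith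
          · have := le_self_pow₀ h (Nat.succ_ne_zero a)
            simp only [Nat.succ_eq_add_one] at this
            linarith
        nlinarith
      have h7 : (|x| + R) * (C * (1 + |x| ^ a) * |y|) ≤ C * |y| * ((2 * R + 2) * (1 + |x| ^ (a + 1))) := by
        calc (|x| + R) * (C * (1 + |x| ^ a) * |y|) = C * |y| * ((|x| + R) * (1 + |x| ^ a)) := by ring
          _ ≤ _ := mul_le_mul_of_nonneg_left h5 (by positivity)
      have h8 : |y| * |x| ^ (a + 1) ≤ 1 * (1 + |x| ^ (a + 1)) * |y| := by nlinarith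
      calc _ ≤ C * |y| * ((2 * R + 2) * (1 + |x| ^ (a + 1))) + 1 * (1 + |x| ^ (a + 1)) * |y| := by linarith
        _ = _ := by ring

lemma step_bd (R : ℝ) (hR : 1 ≤ R) (a : ℕ) (x y : ℝ) (hy : |y| ≤ R) :
    |x + y| * (1 + |x| ^ a) ≤ (2 * R + 2) * (1 + |x| ^ (a + 1)) := by
  have hx0 := abs_nonneg x
  have h2 : |x + y| ≤ |x| + R := (abs_add_le x y).trans (by linarith)
  have h3 := pow_le_one_add hx0 a
  have hp : 0 ≤ |x| ^ a := by positivity
  have hp1 : 0 ≤ |x| ^ (a + 1) := by positivity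
  have e1 : |x| * |x| ^ a = |x| ^ (a + 1) := by ring
  have h6 : |x| ≤ 1 + |x| ^ (a + 1) := by
    rcases le_total |x| 1 with h | h
    · linarith
    · have := le_self_pow₀ h (Nat.succ_ne_zero a)
      simp only [Nat.succ_eq_add_one] at this
      linarith
  have h7 : |x + y| * (1 + |x| ^ a) ≤ (|x| + R) * (1 + |x| ^ a) := mul_le_mul_of_nonneg_right h2 (by positivity)
  nlinarith

/-- first order -/
lemma tay1 (R : ℝ) (hR : 1 ≤ R) (a : ℕ) : ∃ C : ℝ, 0 ≤ C ∧ ∀ x y : ℝ, |y| ≤ R →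
    |(x + y) ^ (a + 2) - x ^ (a + 2) - (a + 2 : ℕ) * x ^ (a + 1) * y| ≤ C * (1 + |x| ^ a) * |y| ^ 2 := by
  induction a with
  | zero =>
      refine ⟨1, zero_le_one, fun x y _ => ?_⟩
      have : (x + y) ^ (0 + 2) - x ^ (0 + 2) - (0 + 2 : ℕ) * x ^ (0 + 1) * y = y ^ 2 := by push_cast; ring
      rw [this, abs_pow]
      have := sq_nonneg |y|
      simp only [pow_zero]
      linarith
  | succ a ih =>
      obtain ⟨C, hC, h⟩ := ih
      refine ⟨C * (2 * R + 2) + (a + 2), by positivity, fun x y hy => ?_⟩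
      have h1 := h x y hy
      have e : (x + y) ^ (a + 1 + 2) - x ^ (a + 1 + 2) - (a + 1 + 2 : ℕ) * x ^ (a + 1 + 1) * y =
          (x + y) * ((x + y) ^ (a + 2) - x ^ (a + 2) - (a + 2 : ℕ) * x ^ (a + 1) * y) + (a + 2) * x ^ (a + 1) * y ^ 2 := by
        push_cast; ring
      rw [e]
      refine (abs_add_le _ _).trans ?_
      rw [abs_mul, abs_mul, abs_mul, abs_pow, abs_pow]
      have ha : |((a : ℝ) + 2)| = a + 2 := abs_of_nonneg (by positivity)
      rw [ha]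
      have h4 : |x + y| * |(x + y) ^ (a + 2) - x ^ (a + 2) - (a + 2 : ℕ) * x ^ (a + 1) * y| ≤ |x + y| * (C * (1 + |x| ^ a) * |y| ^ 2) :=
        mul_le_mul_of_nonneg_left h1 (abs_nonneg _)
      have h5 := step_bd R hR a x y hy
      have h7 : |x + y| * (C * (1 + |x| ^ a) * |y| ^ 2) ≤ C * |y| ^ 2 * ((2 * R + 2) * (1 + |x| ^ (a + 1))) := by
        calc |x + y| * (C * (1 + |x| ^ a) * |y| ^ 2) = C * |y| ^ 2 * (|x + y| * (1 + |x| ^ a)) := by ring
          _ ≤ _ := mul_le_mul_of_nonneg_left h5 (by positivity)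
      have h8 : ((a : ℝ) + 2) * |x| ^ (a + 1) * |y| ^ 2 ≤ (a + 2) * (1 + |x| ^ (a + 1)) * |y| ^ 2 := by
        have : (0 : ℝ) ≤ (a + 2) * |y| ^ 2 := by positivity
        nlinarith
      calc _ ≤ C * |y| ^ 2 * ((2 * R + 2) * (1 + |x| ^ (a + 1))) + (a + 2) * (1 + |x| ^ (a + 1)) * |y| ^ 2 := by linarith
        _ = _ := by ring

/-- second order -/
lemma tay2 (R : ℝ) (hR : 1 ≤ R) (a : ℕ) : ∃ C : ℝ, 0 ≤ C ∧ ∀ x y : ℝ, |y| ≤ R →
    |(x + y) ^ (a + 3) - x ^ (a + 3) - (a + 3 : ℕ) * x ^ (a + 2) * y - ((a + 3).choose 2 : ℕ) * x ^ (a + 1) * y ^ 2| ≤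
      C * (1 + |x| ^ a) * |y| ^ 3 := by
  induction a with
  | zero =>
      refine ⟨1, zero_le_one, fun x y _ => ?_⟩
      have : (x + y) ^ (0 + 3) - x ^ (0 + 3) - (0 + 3 : ℕ) * x ^ (0 + 2) * y - ((0 + 3).choose 2 : ℕ) * x ^ (0 + 1) * y ^ 2 = y ^ 3 := by
        have : ((0 + 3).choose 2 : ℕ) = 3 := by decide
        rw [this]
        push_cast; ring
      rw [this, abs_pow]
      have : 0 ≤ |y| ^ 3 := by positivity
      simp only [pow_zero]
      linarith
  | succ a ih =>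
      obtain ⟨C, hC, h⟩ := ih
      refine ⟨C * (2 * R + 2) + ((a + 3).choose 2 : ℕ), by positivity, fun x y hy => ?_⟩
      have h1 := h x y hy
      have hch : ((a + 1 + 3).choose 2 : ℕ) = (a + 3) + (a + 3).choose 2 := by
        have := Nat.choose_succ_succ (a + 3) 1
        rw [Nat.choose_one_right] at this
        exact this
      have e : (x + y) ^ (a + 1 + 3) - x ^ (a + 1 + 3) - (a + 1 + 3 : ℕ) * x ^ (a + 1 + 2) * y - ((a + 1 + 3).choose 2 : ℕ) * x ^ (a + 1 + 1) * y ^ 2 =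
          (x + y) * ((x + y) ^ (a + 3) - x ^ (a + 3) - (a + 3 : ℕ) * x ^ (a + 2) * y - ((a + 3).choose 2 : ℕ) * x ^ (a + 1) * y ^ 2) +
            ((a + 3).choose 2 : ℕ) * x ^ (a + 1) * y ^ 3 := by
        rw [hch]
        push_cast; ring
      rw [e]
      refine (abs_add_le _ _).trans ?_
      rw [abs_mul, abs_mul, abs_mul, abs_pow, abs_pow, Nat.abs_cast]
      have h4 : |x + y| * |(x + y) ^ (a + 3) - x ^ (a + 3) - (a + 3 : ℕ) * x ^ (a + 2) * y - ((a + 3).choose 2 : ℕ) * x ^ (a + 1) * y ^ 2| ≤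
          |x + y| * (C * (1 + |x| ^ a) * |y| ^ 3) := mul_le_mul_of_nonneg_left h1 (abs_nonneg _)
      have h5 := step_bd R hR a x y hy
      have h7 : |x + y| * (C * (1 + |x| ^ a) * |y| ^ 3) ≤ C * |y| ^ 3 * ((2 * R + 2) * (1 + |x| ^ (a + 1))) := by
        calc |x + y| * (C * (1 + |x| ^ a) * |y| ^ 3) = C * |y| ^ 3 * (|x + y| * (1 + |x| ^ a)) := by ring
          _ ≤ _ := mul_le_mul_of_nonneg_left h5 (by positivity)
      have h8 : (((a + 3).choose 2 : ℕ) : ℝ) * |x| ^ (a + 1) * |y| ^ 3 ≤ ((a + 3).choose 2 : ℕ) * (1 + |x| ^ (a + 1)) * |y| ^ 3 := by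
        have : (0 : ℝ) ≤ ((a + 3).choose 2 : ℕ) * |y| ^ 3 := by positivity
        nlinarith
      calc _ ≤ C * |y| ^ 3 * ((2 * R + 2) * (1 + |x| ^ (a + 1))) + ((a + 3).choose 2 : ℕ) * (1 + |x| ^ (a + 1)) * |y| ^ 3 := by linarith
        _ = _ := by ring

/-- the moments of the centred normal law with variance `V` -/
noncomputable def G (j : ℕ) (V : ℝ) : ℝ := if Even j then (Nat.doubleFactorial (j - 1) : ℝ) * V ^ (j / 2) else 0

lemma G_zero (V : ℝ) : G 0 V = 1 := by simp [G]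

lemma G_one (V : ℝ) : G 1 V = 0 := by simp [G]

lemma G_two (V : ℝ) : G 2 V = V := by
  unfold G
  rw [if_pos (by decide)]
  simp

lemma G_at_zero (a : ℕ) : G (a + 1) 0 = 0 := by
  unfold G
  split_ifs with h
  · have : (a + 1) / 2 ≠ 0 := by
      obtain ⟨c, hc⟩ := h
      omega
    rw [zero_pow this, mul_zero]
  · rfl

lemma G_bound (j : ℕ) (A σ : ℝ) (hA : 1 ≤ A) (hσ : 1 ≤ σ) : ∀ V : ℝ, 0 ≤ V → V ≤ A * σ ^ 2 →
    |G j V| ≤ (Nat.doubleFactorial (j - 1) : ℝ) * A ^ j * σ ^ j := by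
  intro V hV hVA
  unfold G
  split_ifs with h
  · rw [abs_mul, Nat.abs_cast, abs_pow, abs_of_nonneg hV, mul_assoc]
    apply mul_le_mul_of_nonneg_left _ (Nat.cast_nonneg _)
    calc V ^ (j / 2) ≤ (A * σ ^ 2) ^ (j / 2) := pow_le_pow_left₀ hV hVA _
      _ = A ^ (j / 2) * σ ^ (2 * (j / 2)) := by rw [mul_pow, ← pow_mul]
      _ ≤ A ^ j * σ ^ j := by
          apply mul_le_mul (pow_le_pow_right₀ hA (by omega)) (pow_le_pow_right₀ hσ (by omega)) (by positivity) (by positivity)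
  · rw [abs_zero]; positivity

/-- the recurrence -/
lemma G_step (a : ℕ) (A : ℝ) (hA : 1 ≤ A) : ∃ C : ℝ, 0 ≤ C ∧ ∀ (σ : ℝ), 1 ≤ σ → ∀ V v w : ℝ, 0 ≤ V → V ≤ A * σ ^ 2 →
    0 ≤ w → w ≤ 1 → |v| ≤ A * w →
    |G (a + 3) (V + v) - G (a + 3) V - ((a + 3).choose 2 : ℕ) * v * G (a + 1) V| ≤ C * σ ^ a * w := by
  by_cases h : Even (a + 3)
  · obtain ⟨c, hc⟩ := h
    obtain ⟨h, rfl⟩ : ∃ h, a = 2 * h + 1 := ⟨c - 2, by omega⟩
    -- exponent of `V` : h + 2
    obtain ⟨C, hC, ht⟩ := tay1 A hA h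
    refine ⟨(Nat.doubleFactorial (2 * h + 1 + 3 - 1) : ℝ) * (C * (2 * A ^ h) * A ^ 2), by positivity, ?_⟩
    intro σ hσ V v w hV hVA hw hw1 hv
    have hvA : |v| ≤ A := hv.trans (by nlinarith)
    have h1 := ht V v hvA
    have e1 : G (2 * h + 1 + 3) (V + v) = (Nat.doubleFactorial (2 * h + 1 + 3 - 1) : ℝ) * (V + v) ^ (h + 2) := by
      unfold G
      rw [if_pos ⟨h + 2, by ring⟩]
      congr 2
      omega
    have e2 : G (2 * h + 1 + 3) V = (Nat.doubleFactorial (2 * h + 1 + 3 - 1) : ℝ) * V ^ (h + 2) := by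
      unfold G
      rw [if_pos ⟨h + 2, by ring⟩]
      congr 2
      omega
    have e3 : G (2 * h + 1 + 1) V = (Nat.doubleFactorial (2 * h + 1 + 1 - 1) : ℝ) * V ^ (h + 1) := by
      unfold G
      rw [if_pos ⟨h + 1, by ring⟩]
      congr 2
      omega
    have e4 : (Nat.doubleFactorial (2 * h + 1 + 3 - 1) : ℝ) = (2 * h + 3) * (Nat.doubleFactorial (2 * h + 1 + 1 - 1) : ℝ) := by
      have : 2 * h + 1 + 3 - 1 = (2 * h + 1) + 2 := by omega
      rw [this, Nat.doubleFactorial_add_two]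
      have : 2 * h + 1 + 1 - 1 = 2 * h + 1 := by omega
      rw [this]
      push_cast
      ring
    have e5 : (((2 * h + 1 + 3).choose 2 : ℕ) : ℝ) = (h + 2) * (2 * h + 3) := by
      rw [Nat.choose_two_right]
      have : (2 * h + 1 + 3) * (2 * h + 1 + 3 - 1) / 2 = (h + 2) * (2 * h + 3) := by
        have : (2 * h + 1 + 3) * (2 * h + 1 + 3 - 1) = 2 * ((h + 2) * (2 * h + 3)) := by
          have : 2 * h + 1 + 3 - 1 = 2 * h + 3 := by omega
          rw [this]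
          ring
        rw [this, Nat.mul_div_cancel_left _ (by norm_num)]
      rw [this]
      push_cast
      ring
    have e : G (2 * h + 1 + 3) (V + v) - G (2 * h + 1 + 3) V - ((2 * h + 1 + 3).choose 2 : ℕ) * v * G (2 * h + 1 + 1) V =
        (Nat.doubleFactorial (2 * h + 1 + 3 - 1) : ℝ) * ((V + v) ^ (h + 2) - V ^ (h + 2) - (h + 2 : ℕ) * V ^ (h + 1) * v) := by
      rw [e1, e2, e3, e5, e4]
      push_cast
      ring
    rw [e, abs_mul, Nat.abs_cast]
    have h2 : 1 + |V| ^ h ≤ 2 * A ^ h * σ ^ (2 * h) := by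
      rw [abs_of_nonneg hV]
      have h3 : V ^ h ≤ A ^ h * σ ^ (2 * h) := by
        calc V ^ h ≤ (A * σ ^ 2) ^ h := pow_le_pow_left₀ hV hVA _
          _ = A ^ h * σ ^ (2 * h) := by rw [mul_pow, ← pow_mul]
      have h4 : 1 ≤ A ^ h * σ ^ (2 * h) := one_le_mul_of_one_le_of_one_le (one_le_pow₀ hA) (one_le_pow₀ hσ)
      linarith
    have h3 : |v| ^ 2 ≤ A ^ 2 * w := by
      calc |v| ^ 2 ≤ (A * w) ^ 2 := pow_le_pow_left₀ (abs_nonneg _) hv 2
        _ = A ^ 2 * (w * w) := by ring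
        _ ≤ A ^ 2 * w := mul_le_mul_of_nonneg_left (by nlinarith) (by positivity)
    calc (Nat.doubleFactorial (2 * h + 1 + 3 - 1) : ℝ) * |(V + v) ^ (h + 2) - V ^ (h + 2) - (h + 2 : ℕ) * V ^ (h + 1) * v| ≤
        (Nat.doubleFactorial (2 * h + 1 + 3 - 1) : ℝ) * (C * (1 + |V| ^ h) * |v| ^ 2) := mul_le_mul_of_nonneg_left h1 (Nat.cast_nonneg _)
      _ ≤ (Nat.doubleFactorial (2 * h + 1 + 3 - 1) : ℝ) * (C * (2 * A ^ h * σ ^ (2 * h)) * (A ^ 2 * w)) := by
          apply mul_le_mul_of_nonneg_left _ (Nat.cast_nonneg _)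
          apply mul_le_mul (mul_le_mul_of_nonneg_left h2 hC) h3 (by positivity) (by positivity)
      _ ≤ (Nat.doubleFactorial (2 * h + 1 + 3 - 1) : ℝ) * (C * (2 * A ^ h * σ ^ (2 * h + 1)) * (A ^ 2 * w)) := by
          apply mul_le_mul_of_nonneg_left _ (Nat.cast_nonneg _)
          apply mul_le_mul_of_nonneg_right _ (by positivity)
          apply mul_le_mul_of_nonneg_left _ hC
          apply mul_le_mul_of_nonneg_left (pow_le_pow_right₀ hσ (Nat.le_succ _)) (by positivity)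
      _ = _ := by ring
  · refine ⟨0, le_rfl, ?_⟩
    intro σ hσ V v w _ _ _ _ _
    have h1 : ¬ Even (a + 1) := by
      intro h2
      apply h
      obtain ⟨c, hc⟩ := h2
      exact ⟨c + 1, by omega⟩
    unfold G
    rw [if_neg h, if_neg h, if_neg h1]
    simp

end Pool.Agent.K4H4.CL
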